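import Pool.Agent.LibHFG.Eval

open Finset

namespace Pool.Agent.LibHFG

open TwistData

set_option linter.unusedSectionVars false

section

variable {Γ : Type} [AddMonoid Γ] {I : Type} (D : TwistData Γ I) [Nonempty I] {m : ℕ}
  (a : Fin m → D.Alg)

/-- `x` is approximable, to any accuracy for the seminorm `ρ`, by values of free entire
functions of `R`-norm at most `c`. -/
def Ap (R : {R : ℝ // 0 < R}) (ρ : I) (x : D.Alg) (c : ℝ) : Prop :=
  ∀ δ > 0, ∃ ω : FreeEntire m, (freeData m).nrm R ω ≤ c ∧ D.nrm ρ (x - evalHom D a ω) ≤ δ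

variable {D a}

lemma Ap.nonneg {R : {R : ℝ // 0 < R}} {ρ : I} {x : D.Alg} {c : ℝ} (h : Ap D a R ρ x c) :
    0 ≤ c := by
  obtain ⟨ω, h1, _⟩ := h 1 one_pos
  exact (apply_nonneg _ _).trans h1

lemma Ap.mono_c {R : {R : ℝ // 0 < R}} {ρ : I} {x : D.Alg} {c c' : ℝ} (h : Ap D a R ρ x c)
    (hc : c ≤ c') : Ap D a R ρ x c' := by
  intro δ hδ
  obtain ⟨ω, h1, h2⟩ := h δ hδ
  exact ⟨ω, h1.trans hc, h2⟩

lemma Ap.add {R : {R : ℝ // 0 < R}} {ρ : I} {x y : D.Alg} {c d : ℝ} (h : Ap D a R ρ x c)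
    (h' : Ap D a R ρ y d) : Ap D a R ρ (x + y) (c + d) := by
  intro δ hδ
  obtain ⟨ω, h1, h2⟩ := h (δ / 2) (half_pos hδ)
  obtain ⟨η, h3, h4⟩ := h' (δ / 2) (half_pos hδ)
  refine ⟨ω + η, (map_add_le_add _ _ _).trans (add_le_add h1 h3), ?_⟩
  have : x + y - evalHom D a (ω + η) = (x - evalHom D a ω) + (y - evalHom D a η) := by
    rw [map_add]; abel
  rw [this]
  exact (map_add_le_add _ _ _).trans (by linarith)

lemma Ap.smul {R : {R : ℝ // 0 < R}} {ρ : I} {x : D.Alg} {c : ℝ} (h : Ap D a R ρ x c) (z : ℂ) :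
    Ap D a R ρ (z • x) (‖z‖ * c) := by
  intro δ hδ
  obtain ⟨ω, h1, h2⟩ := h (δ / (‖z‖ + 1)) (by positivity)
  refine ⟨z • ω, ?_, ?_⟩
  · rw [map_smul_eq_mul]
    exact mul_le_mul_of_nonneg_left h1 (norm_nonneg _)
  · have : z • x - evalHom D a (z • ω) = z • (x - evalHom D a ω) := by
      rw [map_smul, smul_sub]
    rw [this, map_smul_eq_mul]
    have h3 : ‖z‖ * D.nrm ρ (x - evalHom D a ω) ≤ ‖z‖ * (δ / (‖z‖ + 1)) :=
      mul_le_mul_of_nonneg_left h2 (norm_nonneg _)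
    refine h3.trans ?_
    rw [← mul_div_assoc, div_le_iff₀ (by positivity)]
    nlinarith [norm_nonneg z]

lemma Ap.sub {R : {R : ℝ // 0 < R}} {ρ : I} {x y : D.Alg} {c d : ℝ} (h : Ap D a R ρ x c)
    (h' : Ap D a R ρ y d) : Ap D a R ρ (x - y) (c + d) := by
  have := h.add (h'.smul (-1))
  simpa [sub_eq_add_neg] using this

lemma Ap.letter {R : {R : ℝ // 0 < R}} {ρ : I} {x : D.Alg} {c : ℝ} (h : Ap D a R ρ x c)
    (j : Fin m) : Ap D a R ρ (a j * x) (R.1 * c) := by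
  intro δ hδ
  obtain ⟨ω, h1, h2⟩ := h (δ / (D.nrm ρ (a j) + 1))
    (div_pos hδ (by have : 0 ≤ D.nrm ρ (a j) := apply_nonneg _ _; linarith))
  have h0 : 0 ≤ D.nrm ρ (a j) := apply_nonneg _ _
  refine ⟨LibHFG.letter j * ω, ?_, ?_⟩
  · refine ((freeData m).nrm_mul_le R _ _).trans ?_
    rw [nrm_letter]
    exact mul_le_mul_of_nonneg_left h1 R.2.le
  · have : a j * x - evalHom D a (LibHFG.letter j * ω) = a j * (x - evalHom D a ω) := by
      rw [map_mul, evalHom_letter, mul_sub]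
    rw [this]
    refine (D.nrm_mul_le _ _ _).trans ((mul_le_mul_of_nonneg_left h2 h0).trans ?_)
    rw [← mul_div_assoc, div_le_iff₀ (by linarith)]
    nlinarith

lemma ap_eval (R : {R : ℝ // 0 < R}) (ρ : I) (ω : FreeEntire m) :
    Ap D a R ρ (evalHom D a ω) ((freeData m).nrm R ω) := by
  intro δ hδ
  exact ⟨ω, le_refl _, by simpa using hδ.le⟩

lemma ap_zero (R : {R : ℝ // 0 < R}) (ρ : I) : Ap D a R ρ 0 0 := by
  simpa using ap_eval (D := D) (a := a) R ρ 0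

lemma Ap.sum {ι : Type} {R : {R : ℝ // 0 < R}} {ρ : I} {u : ι → D.Alg} {c : ι → ℝ}
    (h : ∀ j, Ap D a R ρ (u j) (c j)) (s : Finset ι) :
    Ap D a R ρ (∑ j ∈ s, u j) (∑ j ∈ s, c j) := by
  classical
  induction s using Finset.induction_on with
  | empty => simpa using ap_zero R ρ
  | insert x s hx ih =>
    rw [Finset.sum_insert hx, Finset.sum_insert hx]
    exact (h x).add ih

lemma Ap.tsum {ι : Type} {R : {R : ℝ // 0 < R}} {ρ : I} {u : ι → D.Alg} {c : ι → ℝ}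
    (hu : ∀ i, Summable fun j => D.nrm i (u j))
    (h : ∀ j, Ap D a R ρ (u j) (c j)) (hc : Summable c) :
    Ap D a R ρ (tsumAlg u hu) (∑' j, c j) := by
  intro δ hδ
  obtain ⟨s, hs⟩ := exists_finset_nrm_le u hu ρ (half_pos hδ)
  obtain ⟨ω, h1, h2⟩ := Ap.sum h s (δ / 2) (half_pos hδ)
  refine ⟨ω, h1.trans (hc.sum_le_tsum s fun j _ => (h j).nonneg), ?_⟩
  have h3 := hs s (Finset.Subset.refl _)
  have : tsumAlg u hu - evalHom D a ω =
      (tsumAlg u hu - ∑ j ∈ s, u j) + (∑ j ∈ s, u j - evalHom D a ω) := by abel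
  rw [this]
  exact (map_add_le_add _ _ _).trans (by linarith)

/-- If all basis elements in the support of `x` are approximable, then so is `x`. -/
lemma ap_of_mono {R : {R : ℝ // 0 < R}} {ρ ρ' : I} {C : ℝ} (x : D.Alg)
    (h : ∀ g, coeff x g ≠ 0 → Ap D a R ρ (D.mono g) (C * D.w ρ' g)) :
    Ap D a R ρ x (C * D.nrm ρ' x) := by
  have h1 : ∀ g, Ap D a R ρ (coeff x g • D.mono g) (C * (‖coeff x g‖ * D.w ρ' g)) := by
    intro g
    by_cases hg : coeff x g = 0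
    · simpa [hg] using ap_zero R ρ
    · have := (h g hg).smul (coeff x g)
      exact this.mono_c (by ring_nf; exact le_refl _)
  have h2 := Ap.tsum (summable_expansion x) h1 ((summable_coeff x ρ').mul_left C)
  rw [← eq_tsumAlg, tsum_mul_left] at h2
  exact h2

/-! ### The domination property -/

/-- The domination property at `(R, ρ)` with constants `K`, `L`, for a degree function. -/
def Dom (a : Fin m → D.Alg) (dg : Γ → ℕ) (R : {R : ℝ // 0 < R}) (ρ : I) (K L : ℕ) : Prop :=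
  ∀ g, K ≤ dg g → ∃ (j : Fin m) (M : Γ) (β : ℂ),
    R.1 * D.w ρ M + D.nrm ρ (a j * D.mono M - β • D.mono g) ≤ 1 / 2 * (‖β‖ * D.w ρ g) ∧
    dg g ≤ dg M + L ∧
    ∀ h, coeff (a j * D.mono M - β • D.mono g) h ≠ 0 → dg g ≤ dg h + L

lemma beta_pos {R : {R : ℝ // 0 < R}} {ρ : I} {g M : Γ} {β : ℂ} {x : D.Alg}
    (h : R.1 * D.w ρ M + D.nrm ρ x ≤ 1 / 2 * (‖β‖ * D.w ρ g)) : 0 < ‖β‖ := by
  have h1 : 0 < R.1 * D.w ρ M := mul_pos R.2 (D.w_pos _ _)
  have h2 : 0 ≤ D.nrm ρ x := apply_nonneg _ _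
  have h3 := D.w_pos ρ g
  by_contra hc
  have h4 : ‖β‖ = 0 := le_antisymm (not_lt.1 hc) (norm_nonneg _)
  rw [h4] at h
  linarith

lemma improve_iter {dg : Γ → ℕ} {R : {R : ℝ // 0 < R}} {ρ ρ' : I} {K L : ℕ} {C : ℝ}
    (hD : Dom a dg R ρ K L) (h : ∀ g, Ap D a R ρ' (D.mono g) (C * D.w ρ g)) (s : ℕ) :
    ∀ g, K + s * L ≤ dg g → Ap D a R ρ' (D.mono g) ((1 / 2) ^ s * C * D.w ρ g) := by
  induction s with
  | zero =>
    intro g _
    simpa using h g
  | succ s ih =>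
    intro g hg
    rw [add_mul, one_mul] at hg
    obtain ⟨j, M, β, h1, h2, h3⟩ := hD g (by omega)
    have hβ := beta_pos h1
    have hβ0 : β ≠ 0 := norm_pos_iff.1 hβ
    have e1 : Ap D a R ρ' (a j * D.mono M) (R.1 * ((1 / 2) ^ s * C * D.w ρ M)) :=
      (ih M (by omega)).letter j
    have e2 : Ap D a R ρ' (a j * D.mono M - β • D.mono g)
        ((1 / 2) ^ s * C * D.nrm ρ (a j * D.mono M - β • D.mono g)) := by
      apply ap_of_mono
      intro h hh
      exact ih h (by have := h3 h hh; omega)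
    have e3 := (e1.sub e2).smul β⁻¹
    have e4 : β⁻¹ • (a j * D.mono M - (a j * D.mono M - β • D.mono g)) = D.mono g := by
      rw [sub_sub_cancel, smul_smul, inv_mul_cancel₀ hβ0, one_smul]
    rw [e4] at e3
    have hC : 0 ≤ C := by
      have h5 := (h g).nonneg
      have h6 := D.w_pos ρ g
      by_contra hc
      push Not at hc
      nlinarith
    refine e3.mono_c ?_
    rw [norm_inv]
    have h7 : R.1 * ((1 / 2) ^ s * C * D.w ρ M) +
        (1 / 2) ^ s * C * D.nrm ρ (a j * D.mono M - β • D.mono g) =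
        (1 / 2) ^ s * C * (R.1 * D.w ρ M + D.nrm ρ (a j * D.mono M - β • D.mono g)) := by ring
    rw [h7, inv_mul_le_iff₀ hβ]
    have h8 : (1 / 2 : ℝ) ^ s * C * (R.1 * D.w ρ M + D.nrm ρ (a j * D.mono M - β • D.mono g)) ≤
        (1 / 2) ^ s * C * (1 / 2 * (‖β‖ * D.w ρ g)) :=
      mul_le_mul_of_nonneg_left h1 (by positivity)
    refine h8.trans (le_of_eq ?_)
    rw [pow_succ]
    ring

/-! ### The K-functional -/

variable (D a)

/-- The K-functional between the quotient norm and a seminorm. -/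
noncomputable def kf (R : {R : ℝ // 0 < R}) (ρ : I) (Λ : ℝ) (x : D.Alg) : ℝ :=
  ⨅ ω : FreeEntire m, ((freeData m).nrm R ω + Λ * D.nrm ρ (x - evalHom D a ω))

variable {D a}

section kf

variable {R : {R : ℝ // 0 < R}} {ρ : I} {Λ : ℝ} (hΛ : 0 ≤ Λ)

include hΛ

lemma kf_bdd (x : D.Alg) : BddBelow (Set.range fun ω : FreeEntire m =>
    ((freeData m).nrm R ω + Λ * D.nrm ρ (x - evalHom D a ω))) := by
  refine ⟨0, ?_⟩
  rintro _ ⟨ω, rfl⟩
  have h1 : 0 ≤ (freeData m).nrm R ω := apply_nonneg _ _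
  have h2 : 0 ≤ D.nrm ρ (x - evalHom D a ω) := apply_nonneg _ _
  positivity

lemma kf_le (x : D.Alg) (ω : FreeEntire m) :
    kf D a R ρ Λ x ≤ (freeData m).nrm R ω + Λ * D.nrm ρ (x - evalHom D a ω) :=
  ciInf_le (kf_bdd hΛ x) ω

lemma kf_nonneg (x : D.Alg) : 0 ≤ kf D a R ρ Λ x := by
  apply le_ciInf
  intro ω
  have h1 : 0 ≤ (freeData m).nrm R ω := apply_nonneg _ _
  have h2 : 0 ≤ D.nrm ρ (x - evalHom D a ω) := apply_nonneg _ _
  positivity

lemma kf_exists (x : D.Alg) {ε : ℝ} (hε : 0 < ε) : ∃ ω : FreeEntire m,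
    (freeData m).nrm R ω + Λ * D.nrm ρ (x - evalHom D a ω) ≤ kf D a R ρ Λ x + ε := by
  obtain ⟨ω, hω⟩ := exists_lt_of_ciInf_lt (lt_add_of_pos_right (kf D a R ρ Λ x) hε)
  exact ⟨ω, hω.le⟩

lemma kf_le_nrm (x : D.Alg) : kf D a R ρ Λ x ≤ Λ * D.nrm ρ x := by
  have := kf_le (R := R) (ρ := ρ) (a := a) hΛ x 0
  simpa using this

lemma kf_add (x y : D.Alg) : kf D a R ρ Λ (x + y) ≤ kf D a R ρ Λ x + kf D a R ρ Λ y := by
  apply le_of_forall_pos_le_add
  intro ε hε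
  obtain ⟨ω, h1⟩ := kf_exists (R := R) (ρ := ρ) (a := a) hΛ x (half_pos hε)
  obtain ⟨η, h2⟩ := kf_exists (R := R) (ρ := ρ) (a := a) hΛ y (half_pos hε)
  refine (kf_le hΛ _ (ω + η)).trans ?_
  have h3 : x + y - evalHom D a (ω + η) = (x - evalHom D a ω) + (y - evalHom D a η) := by
    rw [map_add]; abel
  have h4 : (freeData m).nrm R (ω + η) ≤ (freeData m).nrm R ω + (freeData m).nrm R η :=
    map_add_le_add _ _ _
  have h5 : Λ * D.nrm ρ ((x - evalHom D a ω) + (y - evalHom D a η)) ≤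
      Λ * (D.nrm ρ (x - evalHom D a ω) + D.nrm ρ (y - evalHom D a η)) :=
    mul_le_mul_of_nonneg_left (map_add_le_add _ _ _) hΛ
  rw [h3]
  linarith

lemma kf_smul_le (z : ℂ) (x : D.Alg) : kf D a R ρ Λ (z • x) ≤ ‖z‖ * kf D a R ρ Λ x := by
  apply le_of_forall_pos_le_add
  intro ε hε
  obtain ⟨ω, h1⟩ := kf_exists (R := R) (ρ := ρ) (a := a) hΛ x
    (show 0 < ε / (‖z‖ + 1) by positivity)
  refine (kf_le hΛ _ (z • ω)).trans ?_
  have h3 : z • x - evalHom D a (z • ω) = z • (x - evalHom D a ω) := by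
    rw [map_smul, smul_sub]
  rw [h3, map_smul_eq_mul, map_smul_eq_mul]
  have h4 : ‖z‖ * (ε / (‖z‖ + 1)) ≤ ε := by
    rw [← mul_div_assoc, div_le_iff₀ (by positivity)]
    nlinarith [norm_nonneg z]
  have h5 := mul_le_mul_of_nonneg_left h1 (norm_nonneg z)
  linarith

lemma kf_letter_le (hR : ∀ j, D.nrm ρ (a j) ≤ R.1) (j : Fin m) (x : D.Alg) :
    kf D a R ρ Λ (a j * x) ≤ R.1 * kf D a R ρ Λ x := by
  apply le_of_forall_pos_le_add
  intro ε hε
  obtain ⟨ω, h1⟩ := kf_exists (R := R) (ρ := ρ) (a := a) hΛ x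
    (show 0 < ε / R.1 from div_pos hε R.2)
  refine (kf_le hΛ _ (LibHFG.letter j * ω)).trans ?_
  have h3 : a j * x - evalHom D a (LibHFG.letter j * ω) = a j * (x - evalHom D a ω) := by
    rw [map_mul, evalHom_letter, mul_sub]
  have h4 : (freeData m).nrm R (LibHFG.letter j * ω) ≤ R.1 * (freeData m).nrm R ω := by
    have := (freeData m).nrm_mul_le R (LibHFG.letter j) ω
    rwa [nrm_letter] at this
  have h5 : D.nrm ρ (a j * (x - evalHom D a ω)) ≤ R.1 * D.nrm ρ (x - evalHom D a ω) :=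
    (D.nrm_mul_le _ _ _).trans (mul_le_mul_of_nonneg_right (hR j) (apply_nonneg _ _))
  rw [h3]
  have h6 := mul_le_mul_of_nonneg_left h5 hΛ
  have h7 := mul_le_mul_of_nonneg_left h1 R.2.le
  have h8 : R.1 * (ε / R.1) = ε := by
    have := R.2.ne'
    field_simp
  rw [mul_add, mul_add, h8] at h7
  linarith

lemma kf_sum_le {ι : Type} (u : ι → D.Alg) (s : Finset ι) :
    kf D a R ρ Λ (∑ j ∈ s, u j) ≤ ∑ j ∈ s, kf D a R ρ Λ (u j) := by
  classical
  induction s using Finset.induction_on with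
  | empty =>
    have := kf_le_nrm (R := R) (ρ := ρ) (a := a) hΛ (0 : D.Alg)
    simpa using this
  | insert x s hx ih =>
    rw [Finset.sum_insert hx, Finset.sum_insert hx]
    exact (kf_add hΛ _ _).trans (by linarith)

lemma kf_le_of_mono {ρ' : I} {S : ℝ} (x : D.Alg)
    (h : ∀ g, kf D a R ρ Λ (D.mono g) ≤ S * D.w ρ' g) :
    kf D a R ρ Λ x ≤ S * D.nrm ρ' x := by
  have hS : ∀ s : Finset Γ, kf D a R ρ Λ (∑ g ∈ s, coeff x g • D.mono g) ≤
      S * D.nrm ρ' x := by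
    intro s
    refine (kf_sum_le hΛ _ s).trans ?_
    have h1 : ∀ g ∈ s, kf D a R ρ Λ (coeff x g • D.mono g) ≤ S * (‖coeff x g‖ * D.w ρ' g) := by
      intro g _
      refine (kf_smul_le hΛ _ _).trans ?_
      have := mul_le_mul_of_nonneg_left (h g) (norm_nonneg (coeff x g))
      linarith
    refine (Finset.sum_le_sum h1).trans ?_
    rw [← Finset.mul_sum]
    have hS0 : 0 ≤ S := by
      have h5 := (kf_nonneg (R := R) (ρ := ρ) (a := a) hΛ (D.mono 0)).trans (h 0)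
      rwa [D.w_zero, mul_one] at h5
    apply mul_le_mul_of_nonneg_left _ hS0
    rw [nrm_def]
    exact (summable_coeff x ρ').sum_le_tsum s fun g _ => nn ρ' x g
  apply le_of_forall_pos_le_add
  intro ε hε
  obtain ⟨s, hs⟩ := exists_finset_expansion x ρ (show 0 < ε / (Λ + 1) by positivity)
  have h1 := hs s (Finset.Subset.refl _)
  have h2 : x = (∑ g ∈ s, coeff x g • D.mono g) + (x - ∑ g ∈ s, coeff x g • D.mono g) := by abel
  have h3 := kf_add (R := R) (ρ := ρ) (a := a) hΛ (∑ g ∈ s, coeff x g • D.mono g)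
    (x - ∑ g ∈ s, coeff x g • D.mono g)
  rw [← h2] at h3
  have h4 := kf_le_nrm (R := R) (ρ := ρ) (a := a) hΛ (x - ∑ g ∈ s, coeff x g • D.mono g)
  have h5 : Λ * (ε / (Λ + 1)) ≤ ε := by
    rw [← mul_div_assoc, div_le_iff₀ (by positivity)]
    nlinarith
  have h6 := mul_le_mul_of_nonneg_left h1 hΛ
  linarith [hS s]

/-- The contraction argument for the K-functional: the bound is independent of `Λ`. -/
lemma kf_mono_le {dg : Γ → ℕ} {ρ' : I} {K L : ℕ} {C : ℝ} (hR : ∀ j, D.nrm ρ (a j) ≤ R.1)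
    (hD : Dom a dg R ρ' K L) (hw : ∀ g, D.w ρ g ≤ D.w ρ' g)
    (hC : ∀ g, dg g < K → kf D a R ρ Λ (D.mono g) ≤ C * D.w ρ' g) (g : Γ) :
    kf D a R ρ Λ (D.mono g) ≤ C * D.w ρ' g ∨ kf D a R ρ Λ (D.mono g) ≤ 0 := by
  set f : Γ → ℝ := fun g => kf D a R ρ Λ (D.mono g) / D.w ρ' g with hf
  have hbdd : BddAbove (Set.range f) := by
    refine ⟨Λ, ?_⟩
    rintro _ ⟨g, rfl⟩
    rw [hf, div_le_iff₀ (D.w_pos _ _)]
    refine (kf_le_nrm hΛ _).trans ?_
    rw [nrm_mono]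
    exact mul_le_mul_of_nonneg_left (hw g) hΛ
  set S := ⨆ g, f g with hSdef
  have hfS : ∀ g, kf D a R ρ Λ (D.mono g) ≤ S * D.w ρ' g := by
    intro g
    have := le_ciSup hbdd g
    rwa [hf, div_le_iff₀ (D.w_pos _ _)] at this
  have hS0 : 0 ≤ S := by
    have h5 := (kf_nonneg (R := R) (ρ := ρ) (a := a) hΛ (D.mono 0)).trans (hfS 0)
    rwa [D.w_zero, mul_one] at h5
  have hstep : ∀ g, f g ≤ max C (S / 2) := by
    intro g
    rcases lt_or_ge (dg g) K with hg | hg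
    · apply le_max_of_le_left
      rw [hf, div_le_iff₀ (D.w_pos _ _)]
      exact hC g hg
    · apply le_max_of_le_right
      rw [hf, div_le_iff₀ (D.w_pos _ _)]
      obtain ⟨j, M, β, h1, _, _⟩ := hD g hg
      have hβ := beta_pos h1
      have hβ0 : β ≠ 0 := norm_pos_iff.1 hβ
      set y := a j * D.mono M - β • D.mono g with hy
      have e1 : D.mono g = β⁻¹ • (a j * D.mono M + (-1 : ℂ) • y) := by
        rw [hy, neg_one_smul, neg_sub, add_sub_cancel, smul_smul, inv_mul_cancel₀ hβ0, one_smul]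
      have e2 := kf_smul_le (R := R) (ρ := ρ) (a := a) hΛ β⁻¹ (a j * D.mono M + (-1 : ℂ) • y)
      rw [← e1, norm_inv] at e2
      have e3 := kf_add (R := R) (ρ := ρ) (a := a) hΛ (a j * D.mono M) ((-1 : ℂ) • y)
      have e4 := kf_letter_le (R := R) (ρ := ρ) (a := a) hΛ hR j (D.mono M)
      have e5 := kf_smul_le (R := R) (ρ := ρ) (a := a) hΛ (-1 : ℂ) y
      have e6 := kf_le_of_mono (R := R) (ρ := ρ) (a := a) hΛ y hfS
      rw [norm_neg, norm_one, one_mul] at e5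
      have e7 := mul_le_mul_of_nonneg_left (hfS M) R.2.le
      have e8 : kf D a R ρ Λ (a j * D.mono M + (-1 : ℂ) • y) ≤
          S * (R.1 * D.w ρ' M + D.nrm ρ' y) := by
        have : S * (R.1 * D.w ρ' M + D.nrm ρ' y) =
          R.1 * (S * D.w ρ' M) + S * D.nrm ρ' y := by ring
        rw [this]
        linarith
      have e9 := mul_le_mul_of_nonneg_left h1 hS0
      refine e2.trans ?_
      rw [inv_mul_le_iff₀ hβ]
      linarith
  have hS1 : S ≤ max C (S / 2) := ciSup_le hstep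
  rcases le_max_iff.1 hS1 with h | h
  · left
    exact (hfS g).trans (mul_le_mul_of_nonneg_right h (D.w_pos _ _).le)
  · right
    have : S = 0 := by linarith
    have h5 := hfS g
    rwa [this, zero_mul] at h5

end kf

/-- Approximability from a bound on the K-functional for all `Λ`. -/
lemma ap_of_kf {R : {R : ℝ // 0 < R}} {ρ : I} {x : D.Alg} {c : ℝ} (hc : 0 < c)
    (h : ∀ Λ : ℝ, 0 ≤ Λ → kf D a R ρ Λ x ≤ c) : Ap D a R ρ x (2 * c) := by
  intro δ hδ
  have hΛ : 0 ≤ 2 * c / δ := by positivity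
  obtain ⟨ω, hω⟩ := kf_exists (R := R) (ρ := ρ) (a := a) hΛ x hc
  have h1 := h _ hΛ
  have h2 : 0 ≤ (freeData m).nrm R ω := apply_nonneg _ _
  have h3 : 0 ≤ D.nrm ρ (x - evalHom D a ω) := apply_nonneg _ _
  refine ⟨ω, ?_, ?_⟩
  · have : 0 ≤ 2 * c / δ * D.nrm ρ (x - evalHom D a ω) := by positivity
    linarith
  · have h4 : 2 * c / δ * D.nrm ρ (x - evalHom D a ω) ≤ 2 * c := by linarith
    rw [div_mul_eq_mul_div, div_le_iff₀ hδ] at h4
    nlinarith

end

end Pool.Agent.LibHFG
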