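import Pool.Agent.LibHFG.Defs

open Finset

namespace Pool.Agent.LibHFG

namespace TwistData

variable {Γ : Type} [AddMonoid Γ] {I : Type} {D : TwistData Γ I}

lemma nn (i : I) (a : D.Alg) (g : Γ) : 0 ≤ ‖coeff a g‖ * D.w i g := by
  have := D.w_pos i g
  positivity

lemma norm_coeff_le (i : I) (a : D.Alg) (g : Γ) : ‖coeff a g‖ * D.w i g ≤ D.nrm i a := by
  rw [nrm_def]
  exact (summable_coeff a i).le_tsum g (fun h _ => nn i a h)

lemma eq_zero_of_nrm (i : I) (a : D.Alg) (h : D.nrm i a = 0) : a = 0 := by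
  ext g
  have h1 := norm_coeff_le i a g
  rw [h] at h1
  have h2 := D.w_pos i g
  have h3 : ‖coeff a g‖ * D.w i g = 0 := le_antisymm h1 (nn i a g)
  rcases mul_eq_zero.1 h3 with h4 | h4
  · simpa using h4
  · exact absurd h4 h2.ne'

lemma nrm_mono (i : I) (m : Γ) : D.nrm i (D.mono m) = D.w i m := by
  classical
  rw [nrm_def, tsum_eq_single m]
  · simp
  · intro g hg
    simp [hg]

lemma nrm_smul_mono (i : I) (z : ℂ) (m : Γ) : D.nrm i (z • D.mono m) = ‖z‖ * D.w i m := by
  rw [map_smul_eq_mul, nrm_mono]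

lemma nrm_one (i : I) : D.nrm i (1 : D.Alg) = 1 := by
  rw [one_def, nrm_mono, D.w_zero]

lemma mono_mul_mono (a b : Γ) : D.mono a * D.mono b = D.σ a b • D.mono (a + b) := by
  classical
  ext g
  rw [coeff_mul, coeff_smul, coeff_mono]
  by_cases hg : g = a + b
  · subst hg
    rw [Finset.sum_eq_single (a, b)]
    · simp
    · rintro ⟨u, v⟩ hp hne
      by_cases hu : u = a
      · subst hu
        have : v ≠ b := fun h => hne (by rw [h])
        simp [this]
      · simp [hu]
    · intro h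
      exact absurd ((D.mem_anti _ _).2 rfl) h
  · rw [if_neg hg, mul_zero]
    apply Finset.sum_eq_zero
    rintro ⟨u, v⟩ hp
    have h1 := (D.mem_anti g _).1 hp
    simp only at h1
    simp only [coeff_mono]
    by_cases hu : u = a
    · by_cases hv : v = b
      · exact absurd (by rw [← h1, hu, hv]) hg
      · simp [hv]
    · simp [hu]

/-! ### Sums of absolutely summable families -/

section tsumAlg

variable {ι : Type} (u : ι → D.Alg) (hu : ∀ i, Summable fun j => D.nrm i (u j))

include hu in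
lemma summable_prod (i : I) :
    Summable fun p : ι × Γ => ‖coeff (u p.1) p.2‖ * D.w i p.2 := by
  rw [summable_prod_of_nonneg]
  · constructor
    · intro j
      exact summable_coeff (u j) i
    · exact hu i
  · intro p
    exact nn i (u p.1) p.2

include hu in
lemma summable_coeff_family [Nonempty I] (g : Γ) : Summable fun j => coeff (u j) g := by
  obtain ⟨i⟩ := ‹Nonempty I›
  apply Summable.of_norm
  have h1 := D.w_pos i g
  refine Summable.of_nonneg_of_le (fun _ => norm_nonneg _) ?_ ((hu i).mul_right (D.w i g)⁻¹)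
  intro j
  have h2 := norm_coeff_le i (u j) g
  rw [← div_eq_mul_inv, le_div_iff₀ h1]
  exact h2

include hu in
lemma tsum_coeff_norm_summable [Nonempty I] (i : I) :
    Summable (fun g => ‖∑' j, coeff (u j) g‖ * D.w i g) ∧
    ∑' g, ‖∑' j, coeff (u j) g‖ * D.w i g ≤ ∑' j, D.nrm i (u j) := by
  have h1 := summable_prod u hu i
  have h2 : Summable fun p : Γ × ι => ‖coeff (u p.2) p.1‖ * D.w i p.1 :=
    (Equiv.prodComm Γ ι).summable_iff.2 h1
  have h3 := (summable_prod_of_nonneg (f := fun p : Γ × ι => ‖coeff (u p.2) p.1‖ * D.w i p.1)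
    (fun p => nn i (u p.2) p.1)).1 h2
  have h4 : ∀ g, ‖∑' j, coeff (u j) g‖ * D.w i g ≤ ∑' j, ‖coeff (u j) g‖ * D.w i g := by
    intro g
    have h5 : Summable fun j => ‖coeff (u j) g‖ := by
      have := (h3.1 g).mul_right (D.w i g)⁻¹
      refine this.congr ?_
      intro j
      have := (D.w_pos i g).ne'
      field_simp
    rw [tsum_mul_right]
    exact mul_le_mul_of_nonneg_right (norm_tsum_le_tsum_norm h5) (D.w_pos i g).le
  have h6 : Summable (fun g => ‖∑' j, coeff (u j) g‖ * D.w i g) :=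
    Summable.of_nonneg_of_le (fun g => by have := D.w_pos i g; positivity) h4 h3.2
  refine ⟨h6, ?_⟩
  calc ∑' g, ‖∑' j, coeff (u j) g‖ * D.w i g
      ≤ ∑' g, ∑' j, ‖coeff (u j) g‖ * D.w i g := h6.tsum_le_tsum h4 h3.2
    _ = ∑' j, ∑' g, ‖coeff (u j) g‖ * D.w i g := by
        exact h1.tsum_comm
    _ = ∑' j, D.nrm i (u j) := rfl

/-- The sum of an absolutely summable family. -/
noncomputable def tsumAlg [Nonempty I] : D.Alg :=
  ⟨fun g => ∑' j, coeff (u j) g, fun i => (tsum_coeff_norm_summable u hu i).1⟩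

lemma coeff_tsumAlg [Nonempty I] (g : Γ) : coeff (tsumAlg u hu) g = ∑' j, coeff (u j) g := rfl

lemma nrm_tsumAlg_le [Nonempty I] (i : I) : D.nrm i (tsumAlg u hu) ≤ ∑' j, D.nrm i (u j) :=
  (tsum_coeff_norm_summable u hu i).2

lemma coeff_sum (s : Finset ι) (v : ι → D.Alg) (g : Γ) :
    coeff (∑ j ∈ s, v j) g = ∑ j ∈ s, coeff (v j) g := by
  classical
  induction s using Finset.induction_on with
  | empty => simp
  | insert a s ha ih => rw [Finset.sum_insert ha, Finset.sum_insert ha, coeff_add, ih]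

lemma nrm_tsumAlg_sub_le [Nonempty I] (i : I) (s : Finset ι) :
    D.nrm i (tsumAlg u hu - ∑ j ∈ s, u j) ≤ ∑' j, D.nrm i (u j) - ∑ j ∈ s, D.nrm i (u j) := by
  classical
  set v : ι → D.Alg := fun j => if j ∈ s then 0 else u j with hv
  have hv' : ∀ i, Summable fun j => D.nrm i (v j) := by
    intro i
    refine Summable.of_nonneg_of_le (fun _ => apply_nonneg _ _) ?_ (hu i)
    intro j
    by_cases hj : j ∈ s
    · simp [hv, hj]
    · simp [hv, hj]
  have h1 : tsumAlg u hu - ∑ j ∈ s, u j = tsumAlg v hv' := by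
    ext g
    rw [coeff_sub, coeff_tsumAlg, coeff_tsumAlg, coeff_sum]
    have h2 := summable_coeff_family u hu g
    rw [← h2.sum_add_tsum_compl (s := s)]
    have h3 := summable_coeff_family v hv' g
    rw [← h3.sum_add_tsum_compl (s := s)]
    have h4 : ∑ j ∈ s, coeff (v j) g = 0 := by
      apply Finset.sum_eq_zero
      intro j hj
      simp [hv, hj]
    have h5 : ∑' (x : ↑(↑s : Set ι)ᶜ), coeff (v ↑x) g = ∑' (x : ↑(↑s : Set ι)ᶜ), coeff (u ↑x) g := by
      congr 1
      ext x
      have : (x : ι) ∉ s := fun h => x.2 (by exact_mod_cast h)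
      simp [hv, this]
    rw [h4, h5]
    ring
  rw [h1]
  refine (nrm_tsumAlg_le v hv' i).trans ?_
  rw [← (hu i).sum_add_tsum_compl (s := s), ← (hv' i).sum_add_tsum_compl (s := s)]
  have h4 : ∑ j ∈ s, D.nrm i (v j) = 0 := by
    apply Finset.sum_eq_zero
    intro j hj
    simp [hv, hj]
  have h5 : ∑' (x : ↑(↑s : Set ι)ᶜ), D.nrm i (v ↑x) = ∑' (x : ↑(↑s : Set ι)ᶜ), D.nrm i (u ↑x) := by
    congr 1
    ext x
    have : (x : ι) ∉ s := fun h => x.2 (by exact_mod_cast h)
    simp [hv, this]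
  rw [h4, h5]
  linarith

/-- finite sums approximate the sum of an absolutely summable family. -/
lemma exists_finset_nrm_le [Nonempty I] (i : I) {δ : ℝ} (hδ : 0 < δ) :
    ∃ s : Finset ι, ∀ t, s ⊆ t → D.nrm i (tsumAlg u hu - ∑ j ∈ t, u j) ≤ δ := by
  classical
  have h1 : Filter.Tendsto (fun s : Finset ι => ∑ j ∈ s, D.nrm i (u j)) Filter.atTop
      (nhds (∑' j, D.nrm i (u j))) := by
    simpa [HasSum] using (hu i).hasSum
  have h2 := (Metric.tendsto_atTop.1 h1) δ hδ
  obtain ⟨s, hs⟩ := h2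
  refine ⟨s, fun t ht => (nrm_tsumAlg_sub_le u hu i t).trans ?_⟩
  have h3 := hs t ht
  rw [Real.dist_eq, abs_sub_comm] at h3
  exact (le_abs_self _).trans h3.le

end tsumAlg

/-- The expansion of an element in the basis. -/
lemma summable_expansion (a : D.Alg) (i : I) :
    Summable fun g => D.nrm i (coeff a g • D.mono g) := by
  refine (summable_coeff a i).congr ?_
  intro g
  rw [nrm_smul_mono]

lemma eq_tsumAlg [Nonempty I] (a : D.Alg) :
    a = tsumAlg (fun g => coeff a g • D.mono g) (summable_expansion a) := by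
  classical
  ext g
  rw [coeff_tsumAlg, tsum_eq_single g]
  · simp
  · intro h hh
    simp [hh.symm]

lemma exists_finset_expansion [Nonempty I] (a : D.Alg) (i : I) {δ : ℝ} (hδ : 0 < δ) :
    ∃ s : Finset Γ, ∀ t, s ⊆ t → D.nrm i (a - ∑ g ∈ t, coeff a g • D.mono g) ≤ δ := by
  obtain ⟨s, hs⟩ := exists_finset_nrm_le _ (summable_expansion a) i hδ
  refine ⟨s, fun t ht => ?_⟩
  have := hs t ht
  rw [← eq_tsumAlg a] at this
  exact this

end TwistData

end Pool.Agent.LibHFG
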