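import Pool.Agent.LibHFG.Defs

open Finset

namespace Pool.Agent.LibHFG

set_option linter.unusedSectionVars false

section

variable {n : ℕ}

/-- exponents of degree `Q` -/
noncomputable def GQ (n Q : ℕ) : Finset (Fin n → ℕ) := Finset.piAntidiag Finset.univ Q

lemma mem_GQ {Q : ℕ} {k : Fin n → ℕ} : k ∈ GQ n Q ↔ deg k = Q := by
  simp [GQ, mem_piAntidiag, deg]

lemma le_deg (k : Fin n → ℕ) (i : Fin n) : k i ≤ deg k :=
  Finset.single_le_sum (f := k) (fun _ _ => Nat.zero_le _) (Finset.mem_univ i)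

/-- normalised multinomial weight -/
noncomputable def PA (A : Fin n → ℝ) (k : Fin n → ℕ) : ℝ := (∏ i, A i ^ k i) / facQuot k

lemma PA_pos {A : Fin n → ℝ} (hA : ∀ i, 0 < A i) (k : Fin n → ℕ) : 0 < PA A k :=
  div_pos (Finset.prod_pos fun i _ => pow_pos (hA i) _) (facQuot_pos k)

lemma inv_facQuot (k : Fin n → ℕ) : (facQuot k)⁻¹ = (Nat.multinomial Finset.univ k : ℝ) := by
  have h := Nat.multinomial_spec Finset.univ k
  have h2 : (∏ i, ((k i).factorial : ℝ)) * (Nat.multinomial Finset.univ k : ℝ) =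
      ((deg k).factorial : ℝ) := by
    unfold deg
    exact_mod_cast h
  unfold facQuot
  rw [inv_div, ← h2]
  have : (∏ i, ((k i).factorial : ℝ)) ≠ 0 := by positivity
  field_simp

lemma sum_PA (A : Fin n → ℝ) (Q : ℕ) : ∑ k ∈ GQ n Q, PA A k = (∑ i, A i) ^ Q := by
  rw [Finset.sum_pow_eq_sum_piAntidiag]
  apply Finset.sum_congr rfl
  intro k _
  rw [PA, div_eq_mul_inv, inv_facQuot, mul_comm]

lemma card_GQ_le (n Q : ℕ) : (GQ n Q).card ≤ (Q + 1) ^ n := by
  have h : GQ n Q ⊆ Fintype.piFinset (fun _ : Fin n => Finset.range (Q + 1)) := by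
    intro k hk
    rw [Fintype.mem_piFinset]
    intro i
    rw [mem_range]
    have := le_deg k i
    rw [mem_GQ.1 hk] at this
    omega
  refine (Finset.card_le_card h).trans ?_
  simp

lemma GQ_nonempty (hn : 0 < n) (Q : ℕ) : (GQ n Q).Nonempty := by
  refine ⟨Pi.single ⟨0, hn⟩ Q, ?_⟩
  rw [mem_GQ]
  simp [deg]

lemma prod_single_pow (A : Fin n → ℝ) (p : Fin n → ℕ) (i : Fin n) :
    ∏ j, A j ^ (p + Pi.single i 1 : Fin n → ℕ) j = A i * ∏ j, A j ^ p j := by
  have h : ∀ j, A j ^ (p + Pi.single i 1 : Fin n → ℕ) j = (if j = i then A j else 1) * A j ^ p j := by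
    intro j
    rw [Pi.add_apply, pow_add]
    by_cases hj : j = i
    · subst hj
      simp [mul_comm]
    · simp [hj]
  simp_rw [h]
  rw [Finset.prod_mul_distrib]
  congr 1
  rw [Finset.prod_ite_eq']
  simp

lemma prod_single_factorial (p : Fin n → ℕ) (i : Fin n) :
    ∏ j, (((p + Pi.single i 1 : Fin n → ℕ) j).factorial : ℝ) = ((p i : ℝ) + 1) * ∏ j, ((p j).factorial : ℝ) := by
  have h : ∀ j, (((p + Pi.single i 1 : Fin n → ℕ) j).factorial : ℝ) =
      (if j = i then ((p j : ℝ) + 1) else 1) * ((p j).factorial : ℝ) := by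
    intro j
    rw [Pi.add_apply]
    by_cases hj : j = i
    · subst hj
      simp [Nat.factorial_succ]
    · simp [hj]
  simp_rw [h]
  rw [Finset.prod_mul_distrib]
  congr 1
  rw [Finset.prod_ite_eq']
  simp

lemma PA_single (A : Fin n → ℝ) (p : Fin n → ℕ) (i : Fin n) :
    PA A (p + Pi.single i 1) * ((p i : ℝ) + 1) =
      A i * ((∏ j, A j ^ p j) * ((deg p + 1).factorial : ℝ) / ∏ j, ((p j).factorial : ℝ)) := by
  have hd : deg (p + Pi.single i 1) = deg p + 1 := by
    rw [deg_add]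
    simp [deg]
  have h1 : (∏ j, ((p j).factorial : ℝ)) ≠ 0 := by positivity
  have h2 : ((p i : ℝ) + 1) ≠ 0 := by positivity
  have h3 : ((deg p + 1).factorial : ℝ) ≠ 0 := by positivity
  rw [PA, facQuot, prod_single_pow, prod_single_factorial, hd]
  field_simp

/-- At a maximiser of `PA`, the coordinates in the support carry a definite proportion. -/
lemma max_support (hn : 0 < n) {A : Fin n → ℝ} (hA : ∀ i, 0 < A i) {Q : ℕ} {k : Fin n → ℕ}
    (hk : k ∈ GQ n Q) (hmax : ∀ k' ∈ GQ n Q, PA A k' ≤ PA A k) (i : Fin n) (hi : 0 < k i) :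
    ∑ j, A j ≤ n * (Q + 1) * A i := by
  have : Nonempty (Fin n) := ⟨⟨0, hn⟩⟩
  obtain ⟨j, _, hj⟩ := Finset.exists_max_image Finset.univ A Finset.univ_nonempty
  have h1 : ∑ j, A j ≤ n * A j := by
    have := Finset.sum_le_card_nsmul Finset.univ A (A j) (fun x hx => hj x hx)
    simpa using this
  set p : Fin n → ℕ := k - Pi.single i 1 with hp
  have hkp : k = p + Pi.single i 1 := by
    rw [hp]
    symm
    apply tsub_add_cancel_of_le
    intro x
    by_cases hx : x = i
    · subst hx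
      simpa using Nat.succ_le_of_lt hi
    · simp [hx]
  have hdk : deg p + 1 = Q := by
    have := mem_GQ.1 hk
    rw [hkp, deg_add] at this
    simpa [deg] using this
  have h2 : PA A (p + Pi.single j 1) ≤ PA A (p + Pi.single i 1) := by
    rw [← hkp]
    apply hmax
    rw [mem_GQ, deg_add]
    simpa [deg] using hdk
  have e1 := PA_single A p i
  have e2 := PA_single A p j
  set X := (∏ j, A j ^ p j) * ((deg p + 1).factorial : ℝ) / ∏ j, ((p j).factorial : ℝ) with hX
  have hX0 : 0 < X := by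
    rw [hX]
    have : 0 < ∏ j, A j ^ p j := Finset.prod_pos fun i _ => pow_pos (hA i) _
    positivity
  have hpi : (0 : ℝ) < (p i : ℝ) + 1 := by positivity
  have hpj : (0 : ℝ) < (p j : ℝ) + 1 := by positivity
  have e3 : A j * X * ((p i : ℝ) + 1) ≤ A i * X * ((p j : ℝ) + 1) := by
    rw [← e1, ← e2]
    nlinarith [mul_pos hpi hpj]
  have e4 : A j * ((p i : ℝ) + 1) ≤ A i * ((p j : ℝ) + 1) := by
    have : X * (A j * ((p i : ℝ) + 1)) ≤ X * (A i * ((p j : ℝ) + 1)) := by linarith
    exact le_of_mul_le_mul_left this hX0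
  have hpjQ : ((p j : ℝ) + 1) ≤ Q + 1 := by
    have := le_deg p j
    have h5 : p j ≤ Q := by omega
    have : (p j : ℝ) ≤ Q := by exact_mod_cast h5
    linarith
  have hp0 : (0 : ℝ) ≤ p i := Nat.cast_nonneg _
  have e5 : A j ≤ A i * (Q + 1) := by
    have h6 : A j ≤ A j * ((p i : ℝ) + 1) := by nlinarith [hA j]
    have h7 : A i * ((p j : ℝ) + 1) ≤ A i * (Q + 1) := mul_le_mul_of_nonneg_left hpjQ (hA i).le
    linarith
  have hn' : (0 : ℝ) ≤ n := Nat.cast_nonneg _
  calc ∑ j, A j ≤ n * A j := h1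
    _ ≤ n * (A i * (Q + 1)) := mul_le_mul_of_nonneg_left e5 hn'
    _ = _ := by ring

lemma fac_mid (a d : ℕ) : ((a + d + 1).factorial) ^ 2 * (a + d + 2) ≤
    (a + d + 1) * (a.factorial * (a + 2 * d + 2).factorial) := by
  induction d generalizing a with
  | zero =>
    have h1 : (a + 0 + 1).factorial = (a + 1) * a.factorial := by
      rw [add_zero, Nat.factorial_succ]
    have h2 : (a + 2 * 0 + 2).factorial = (a + 2) * ((a + 1) * a.factorial) := by
      rw [mul_zero, add_zero, Nat.factorial_succ, Nat.factorial_succ]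
    rw [h1, h2]
    apply le_of_eq
    ring
  | succ d ih =>
    have h := ih (a + 1)
    have h1 : a + 1 + d + 1 = a + (d + 1) + 1 := by ring
    have h2 : a + 1 + d + 2 = a + (d + 1) + 2 := by ring
    rw [h1, h2] at h
    refine h.trans ?_
    apply Nat.mul_le_mul_left
    have h3 : a + 2 * (d + 1) + 2 = (a + 1 + 2 * d + 2) + 1 := by ring
    rw [h3, Nat.factorial_succ (a + 1 + 2 * d + 2), Nat.factorial_succ a]
    have h4 : (a + 1) * a.factorial * (a + 1 + 2 * d + 2).factorial =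
      a.factorial * ((a + 1) * (a + 1 + 2 * d + 2).factorial) := by ring
    rw [h4]
    apply Nat.mul_le_mul_left
    apply Nat.mul_le_mul_right
    omega

lemma fac_mid_lt {k l p : ℕ} (h : k + l = 2 * p) (hkl : k ≠ l) :
    (p.factorial) ^ 2 * (p + 1) ≤ p * (k.factorial * l.factorial) := by
  rcases lt_or_gt_of_ne hkl with hlt | hlt
  · have h1 := fac_mid k (p - k - 1)
    have e1 : k + (p - k - 1) + 1 = p := by omega
    have e2 : k + (p - k - 1) + 2 = p + 1 := by omega
    have e3 : k + 2 * (p - k - 1) + 2 = l := by omega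
    rwa [e1, e2, e3] at h1
  · have h1 := fac_mid l (p - l - 1)
    have e1 : l + (p - l - 1) + 1 = p := by omega
    have e2 : l + (p - l - 1) + 2 = p + 1 := by omega
    have e3 : l + 2 * (p - l - 1) + 2 = k := by omega
    rw [e1, e2, e3] at h1
    rwa [mul_comm k.factorial]

lemma fac_mid_le {k l p : ℕ} (h : k + l = 2 * p) :
    (p.factorial) ^ 2 ≤ k.factorial * l.factorial := by
  by_cases hkl : k = l
  · have : p = k := by omega
    subst this hkl
    rw [sq]
  · have h1 := fac_mid_lt h hkl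
    have h2 : (p.factorial) ^ 2 * (p + 1) ≤ (k.factorial * l.factorial) * (p + 1) := by
      refine h1.trans ?_
      rw [mul_comm]
      exact Nat.mul_le_mul_left _ (by omega)
    exact Nat.le_of_mul_le_mul_right h2 (by omega)

/-- The midpoint inequality. -/
lemma PA_midpoint {A : Fin n → ℝ} (hA : ∀ i, 0 < A i) {Q : ℕ} {k l p : Fin n → ℕ}
    (hk : deg k = Q) (hl : deg l = Q) (hp : deg p = Q) (hmid : ∀ i, k i + l i = 2 * p i)
    (hne : l ≠ k) : PA A k * PA A l ≤ (Q / (Q + 1)) * (PA A p) ^ 2 := by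
  obtain ⟨i₀, hi₀⟩ : ∃ i, l i ≠ k i := by
    by_contra hc
    push Not at hc
    exact hne (funext hc)
  have hpow : (∏ i, A i ^ k i) * (∏ i, A i ^ l i) = (∏ i, A i ^ p i) ^ 2 := by
    rw [← Finset.prod_mul_distrib, ← Finset.prod_pow]
    apply Finset.prod_congr rfl
    intro i _
    rw [← pow_add, hmid, pow_mul', ← pow_mul, mul_comm, pow_mul]
  have hfac : (∏ i, ((p i).factorial : ℝ)) ^ 2 ≤
      (Q / (Q + 1)) * ((∏ i, ((k i).factorial : ℝ)) * ∏ i, ((l i).factorial : ℝ)) := by
    have h1 : ∀ i, ((p i).factorial : ℝ) ^ 2 ≤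
        (if i = i₀ then ((Q : ℝ) / (Q + 1)) else 1) *
          (((k i).factorial : ℝ) * ((l i).factorial : ℝ)) := by
      intro i
      by_cases hi : i = i₀
      · subst hi
        rw [if_pos rfl]
        have h2 := fac_mid_lt (hmid i) (Ne.symm hi₀)
        have h3 : ((p i).factorial : ℝ) ^ 2 * (p i + 1) ≤
            p i * (((k i).factorial : ℝ) * ((l i).factorial : ℝ)) := by exact_mod_cast h2
        have h4 : (p i : ℝ) ≤ Q := by
          have := le_deg p i
          rw [hp] at this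
          exact_mod_cast this
        have h5 : (0 : ℝ) ≤ p i := Nat.cast_nonneg _
        set Y := ((k i).factorial : ℝ) * ((l i).factorial : ℝ) with hY
        have hY0 : 0 ≤ Y := by positivity
        have h6 : ((p i).factorial : ℝ) ^ 2 ≤ (p i / (p i + 1)) * Y := by
          rw [div_mul_eq_mul_div, le_div_iff₀ (by positivity)]
          exact h3
        refine h6.trans (mul_le_mul_of_nonneg_right ?_ hY0)
        rw [div_le_div_iff₀ (by positivity) (by positivity)]
        nlinarith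
      · rw [if_neg hi, one_mul]
        exact_mod_cast fac_mid_le (hmid i)
    calc (∏ i, ((p i).factorial : ℝ)) ^ 2 = ∏ i, ((p i).factorial : ℝ) ^ 2 := by
          rw [Finset.prod_pow]
      _ ≤ ∏ i, ((if i = i₀ then ((Q : ℝ) / (Q + 1)) else 1) *
          (((k i).factorial : ℝ) * ((l i).factorial : ℝ))) :=
          Finset.prod_le_prod (fun i _ => by positivity) (fun i _ => h1 i)
      _ = _ := by
          rw [Finset.prod_mul_distrib, Finset.prod_mul_distrib, Finset.prod_ite_eq']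
          simp
  have hQ : (0 : ℝ) < (Q.factorial : ℝ) := by positivity
  have hApos : 0 < ∏ i, A i ^ p i := Finset.prod_pos fun i _ => pow_pos (hA i) _
  unfold PA facQuot
  rw [hk, hl, hp]
  set a := ∏ i, A i ^ k i
  set b := ∏ i, A i ^ l i
  set c := ∏ i, A i ^ p i
  have hx : 0 < ∏ i, ((k i).factorial : ℝ) := by positivity
  have hy : 0 < ∏ i, ((l i).factorial : ℝ) := by positivity
  have hz : 0 < ∏ i, ((p i).factorial : ℝ) := by positivity
  set x := ∏ i, ((k i).factorial : ℝ)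
  set y := ∏ i, ((l i).factorial : ℝ)
  set z := ∏ i, ((p i).factorial : ℝ)
  have e1 : a / (x / (Q.factorial : ℝ)) * (b / (y / (Q.factorial : ℝ))) =
      (c * Q.factorial) ^ 2 / (x * y) := by
    rw [mul_pow, ← hpow]
    field_simp
  have e2 : (c / (z / (Q.factorial : ℝ))) ^ 2 = (c * Q.factorial) ^ 2 / z ^ 2 := by
    field_simp
  rw [e1, e2, div_le_iff₀ (by positivity)]
  have e3 : (Q : ℝ) / (Q + 1) * ((c * Q.factorial) ^ 2 / z ^ 2) * (x * y) =
    (c * Q.factorial) ^ 2 * (((Q : ℝ) / (Q + 1) * (x * y)) / z ^ 2) := by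
    ring
  rw [e3]
  have e4 : 1 ≤ ((Q : ℝ) / (Q + 1) * (x * y)) / z ^ 2 := by
    rw [one_le_div (by positivity)]
    exact hfac
  have e5 : 0 ≤ (c * Q.factorial) ^ 2 := by positivity
  nlinarith

/-- At a maximiser, the other values in the same class mod 2 are smaller by a factor. -/
lemma max_class {A : Fin n → ℝ} (hA : ∀ i, 0 < A i) {Q : ℕ} {k : Fin n → ℕ}
    (hk : k ∈ GQ n Q) (hmax : ∀ k' ∈ GQ n Q, PA A k' ≤ PA A k) {l : Fin n → ℕ}
    (hl : l ∈ GQ n Q) (hne : l ≠ k) (hmod : ∀ i, l i % 2 = k i % 2) :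
    PA A l ≤ (Q / (Q + 1)) * PA A k := by
  set p : Fin n → ℕ := fun i => (k i + l i) / 2 with hp
  have hmid : ∀ i, k i + l i = 2 * p i := by
    intro i
    have := hmod i
    simp only [hp]
    omega
  have hdp : deg p = Q := by
    have h1 : deg k + deg l = 2 * deg p := by
      unfold deg
      rw [Finset.mul_sum, ← Finset.sum_add_distrib]
      exact Finset.sum_congr rfl fun i _ => hmid i
    rw [mem_GQ.1 hk, mem_GQ.1 hl] at h1
    omega
  have h1 := PA_midpoint hA (mem_GQ.1 hk) (mem_GQ.1 hl) hdp hmid hne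
  have h2 := hmax p (mem_GQ.2 hdp)
  have h3 := PA_pos hA k
  have h4 := PA_pos hA p
  have h5 : (PA A p) ^ 2 ≤ (PA A k) ^ 2 := pow_le_pow_left₀ h4.le h2 2
  have h6 : (0 : ℝ) ≤ Q / (Q + 1) := by positivity
  have h7 : PA A k * PA A l ≤ PA A k * ((Q / (Q + 1)) * PA A k) := by
    calc PA A k * PA A l ≤ (Q / (Q + 1)) * (PA A p) ^ 2 := h1
      _ ≤ (Q / (Q + 1)) * (PA A k) ^ 2 := mul_le_mul_of_nonneg_left h5 h6
      _ = _ := by ring
  exact le_of_mul_le_mul_left h7 h3

end

end Pool.Agent.LibHFG
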