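import Pool.Agent.LibHFG.Part1

open Finset

namespace Pool.Agent.LibHFG

open TwistData

set_option linter.unusedSectionVars false

lemma withSeminorms {Γ : Type} [AddMonoid Γ] {I : Type} (D : TwistData Γ I) [Nonempty I] :
    WithSeminorms D.nrm := ⟨rfl⟩

/-- A finite set of radii is bounded by a single radius. -/
lemma sup_le_single {m : ℕ} (s : Finset PR) : ∃ R : PR, ∀ ω : FreeEntire m,
    (s.sup (freeData m).nrm) ω ≤ (freeData m).nrm R ω := by
  classical
  refine ⟨⟨1 + ∑ R ∈ s, R.1, ?_⟩, fun ω => ?_⟩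
  · have : 0 ≤ ∑ R ∈ s, R.1 := Finset.sum_nonneg fun R _ => R.2.le
    linarith
  · apply Seminorm.finset_sup_apply_le (apply_nonneg _ _)
    intro R hR
    apply free_nrm_mono
    have : R.1 ≤ ∑ R ∈ s, R.1 :=
      Finset.single_le_sum (f := fun R : PR => R.1) (fun R _ => R.2.le) hR
    show R.1 ≤ 1 + ∑ R ∈ s, R.1
    linarith

section

variable {n : ℕ} {r : ℝ} {q : Circle} {m : ℕ} [Fact (0 < r)] {a : Fin m → QuantumBall n r q}

lemma continuous_evalHom : Continuous (evalHom (ballData n r q) a) := by
  have h : Continuous (evalHom (ballData n r q) a).toLinearMap := by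
    refine WithSeminorms.continuous_of_isBounded (withSeminorms (freeData m))
      (withSeminorms (ballData n r q)) _ ?_
    intro ρ
    refine ⟨{bigR (ballData n r q) a ρ}, 1, ?_⟩
    rw [Finset.sup_singleton, one_smul]
    intro ω
    exact nrm_evalHom_le (ballData n r q) a ρ _ (le_bigR _ _ _) ω
  exact h

lemma isOpenMap_evalHom (h : ∀ R : PR, ∃ (ρ : Rad r) (C : ℝ), ∀ x, ∃ ω : FreeEntire m,
    evalHom (ballData n r q) a ω = x ∧
      (freeData m).nrm R ω ≤ C * (ballData n r q).nrm ρ x) :
    IsOpenMap (evalHom (ballData n r q) a) := by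
  intro U hU
  rw [(withSeminorms (ballData n r q)).isOpen_iff_mem_balls]
  rintro _ ⟨ω₀, hω₀, rfl⟩
  obtain ⟨s, ε, hε, hs⟩ := ((withSeminorms (freeData m)).isOpen_iff_mem_balls U).1 hU ω₀ hω₀
  obtain ⟨R, hR⟩ := sup_le_single (m := m) s
  obtain ⟨ρ, C, hC⟩ := h R
  have hC1 : 0 < max C 1 := lt_max_of_lt_right one_pos
  refine ⟨{ρ}, ε / max C 1, by positivity, ?_⟩
  intro y hy
  rw [Seminorm.mem_ball, Finset.sup_singleton] at hy
  obtain ⟨ω, hω1, hω2⟩ := hC (y - evalHom (ballData n r q) a ω₀)
  refine ⟨ω₀ + ω, hs ?_, ?_⟩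
  · rw [Seminorm.mem_ball, add_sub_cancel_left]
    refine (hR ω).trans_lt (hω2.trans_lt ?_)
    have h1 : C * (ballData n r q).nrm ρ (y - evalHom (ballData n r q) a ω₀) ≤
        max C 1 * (ballData n r q).nrm ρ (y - evalHom (ballData n r q) a ω₀) :=
      mul_le_mul_of_nonneg_right (le_max_left _ _) (apply_nonneg _ _)
    rw [lt_div_iff₀ hC1] at hy
    linarith
  · rw [map_add, hω1]
    abel

/-- Two-sided ideal quotients give isomorphisms. -/
theorem isHFG_of_good (hg : Good a) : IsHFG (QuantumBall n r q) := by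
  have h3 := step3 hg
  have hopen := isOpenMap_evalHom h3
  have hcont : Continuous (evalHom (ballData n r q) a) := continuous_evalHom
  have hsurj : Function.Surjective (evalHom (ballData n r q) a) := by
    intro x
    obtain ⟨ρ, C, hC⟩ := h3 ⟨1, one_pos⟩
    obtain ⟨ω, hω, _⟩ := hC x
    exact ⟨ω, hω⟩
  set φ := evalHom (ballData n r q) a with hφ
  have : T1Space (QuantumBall n r q) := by
    refine (withSeminorms (ballData n r q)).T1_of_separating ?_
    intro x hx
    exact ⟨Classical.arbitrary _, fun h => hx (eq_zero_of_nrm _ x h)⟩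
  set J : TwoSidedIdeal (FreeEntire m) := TwoSidedIdeal.ker φ with hJ
  have hJle : J.ringCon ≤ RingCon.ker φ.toRingHom := by
    intro x y hxy
    exact hxy
  set f : J.ringCon.Quotient →ₐ[ℂ] QuantumBall n r q := RingCon.liftₐ J.ringCon φ hJle with hf
  have hfmk : ∀ x : FreeEntire m, f (x : J.ringCon.Quotient) = φ x := fun x => rfl
  have hbij : Function.Bijective f := by
    constructor
    · intro x y hxy
      induction x using Quotient.inductionOn' with
      | h x =>
        induction y using Quotient.inductionOn' with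
        | h y => exact Quotient.sound' hxy
    · intro x
      obtain ⟨ω, hω⟩ := hsurj x
      exact ⟨(ω : J.ringCon.Quotient), hω⟩
  refine ⟨m, J, ?_, AlgEquiv.ofBijective f hbij, ?_⟩
  · have : {a : FreeEntire m | a ∈ J} = φ ⁻¹' {0} := by
      ext x
      simp [hJ, TwoSidedIdeal.mem_ker]
    rw [this]
    exact isClosed_singleton.preimage hcont
  · let _ : TopologicalSpace J.ringCon.Quotient := TopologicalSpace.coinduced
      (fun a : FreeEntire m => (a : J.ringCon.Quotient)) inferInstance
    refine ⟨?_, ?_, ?_⟩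
    · apply continuous_coinduced_dom.2
      exact hcont
    · intro U hU
      have h1 : IsOpen ((fun a : FreeEntire m => (a : J.ringCon.Quotient)) ⁻¹' U) :=
        isOpen_coinduced.1 hU
      have h2 := hopen _ h1
      convert h2 using 1
      ext x
      constructor
      · rintro ⟨y, hy, rfl⟩
        induction y using Quotient.inductionOn' with
        | h y => exact ⟨y, hy, rfl⟩
      · rintro ⟨y, hy, rfl⟩
        exact ⟨(y : J.ringCon.Quotient), hy, rfl⟩
    · exact hbij

end

end Pool.Agent.LibHFG
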