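import Mathlib

open Finset

namespace Pool.Agent.LibHFG

/-- Data for a weighted twisted convolution algebra on an additively written monoid `Γ` in
which every element has finitely many factorisations: a normalised 2-cocycle `σ` of absolute
value one and a family of submultiplicative weights `w`. -/
structure TwistData (Γ : Type) [AddMonoid Γ] (I : Type) where
  anti : Γ → Finset (Γ × Γ)
  mem_anti : ∀ g p, p ∈ anti g ↔ p.1 + p.2 = g
  σ : Γ → Γ → ℂ
  σ_norm : ∀ a b, ‖σ a b‖ = 1
  σ_zero_left : ∀ a, σ 0 a = 1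
  σ_zero_right : ∀ a, σ a 0 = 1
  σ_cocycle : ∀ a b c, σ a b * σ (a + b) c = σ b c * σ a (b + c)
  w : I → Γ → ℝ
  w_pos : ∀ i a, 0 < w i a
  w_zero : ∀ i, w i 0 = 1
  w_add : ∀ i a b, w i (a + b) ≤ w i a * w i b

namespace TwistData

variable {Γ : Type} [AddMonoid Γ] {I : Type} (D : TwistData Γ I)

/-- The coefficient families `c` with `∑ |c g| w i g < ∞` for all `i`. -/
def sub : Submodule ℂ (Γ → ℂ) where
  carrier := {c | ∀ i, Summable fun g => ‖c g‖ * D.w i g}
  zero_mem' := by
    intro i
    simp
  add_mem' := by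
    intro a b ha hb i
    refine Summable.of_nonneg_of_le (fun g => by have := D.w_pos i g; positivity) ?_
      ((ha i).add (hb i))
    intro g
    rw [← add_mul]
    exact mul_le_mul_of_nonneg_right (norm_add_le _ _) (D.w_pos i g).le
  smul_mem' := by
    intro z a ha i
    have := (ha i).mul_left ‖z‖
    refine this.congr ?_
    intro g
    simp [mul_assoc]

/-- The weighted twisted convolution algebra of `D`, as a type of coefficient families. -/
def Alg : Type := D.sub

noncomputable instance : AddCommGroup D.Alg := inferInstanceAs (AddCommGroup D.sub)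
noncomputable instance : Module ℂ D.Alg := inferInstanceAs (Module ℂ D.sub)

variable {D}

/-- The `g`-th coefficient. -/
def coeff (a : D.Alg) (g : Γ) : ℂ := a.1 g

lemma summable_coeff (a : D.Alg) (i : I) : Summable fun g => ‖coeff a g‖ * D.w i g := a.2 i

@[ext] lemma Alg.ext {a b : D.Alg} (h : ∀ g, coeff a g = coeff b g) : a = b :=
  Subtype.ext (funext h)

@[simp] lemma coeff_add (a b : D.Alg) (g : Γ) : coeff (a + b) g = coeff a g + coeff b g := rfl
@[simp] lemma coeff_sub (a b : D.Alg) (g : Γ) : coeff (a - b) g = coeff a g - coeff b g := rfl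
@[simp] lemma coeff_neg (a : D.Alg) (g : Γ) : coeff (-a) g = -coeff a g := rfl
@[simp] lemma coeff_zero (g : Γ) : coeff (0 : D.Alg) g = 0 := rfl
@[simp] lemma coeff_smul (z : ℂ) (a : D.Alg) (g : Γ) : coeff (z • a) g = z * coeff a g := rfl

variable (D)

/-- The seminorm `∑ |c g| w i g`. -/
noncomputable def nrm (i : I) : Seminorm ℂ D.Alg :=
  Seminorm.of (fun a => ∑' g, ‖coeff a g‖ * D.w i g)
    (by
      intro a b
      rw [← (summable_coeff a i).tsum_add (summable_coeff b i)]
      refine Summable.tsum_le_tsum ?_ (summable_coeff (a + b) i)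
        ((summable_coeff a i).add (summable_coeff b i))
      intro g
      rw [← add_mul]
      exact mul_le_mul_of_nonneg_right (norm_add_le _ _) (D.w_pos i g).le)
    (by
      intro z a
      rw [← tsum_mul_left]
      congr 1
      ext g
      simp [mul_assoc])

lemma nrm_def (i : I) (a : D.Alg) : D.nrm i a = ∑' g, ‖coeff a g‖ * D.w i g := rfl

/-- The finite double sum giving the coefficients of a product. -/
noncomputable def conv (c d : Γ → ℂ) (g : Γ) : ℂ :=
  ∑ p ∈ D.anti g, D.σ p.1 p.2 * c p.1 * d p.2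

lemma conv_sum_le (c d : Γ → ℂ) (i : I) (hc : Summable fun g => ‖c g‖ * D.w i g)
    (hd : Summable fun g => ‖d g‖ * D.w i g) (s : Finset Γ) :
    ∑ g ∈ s, ‖D.conv c d g‖ * D.w i g ≤
      (∑' g, ‖c g‖ * D.w i g) * ∑' g, ‖d g‖ * D.w i g := by
  classical
  have h1 : ∀ g ∈ s, ‖D.conv c d g‖ * D.w i g ≤
      ∑ p ∈ D.anti g, (‖c p.1‖ * D.w i p.1) * (‖d p.2‖ * D.w i p.2) := by
    intro g _
    unfold conv
    calc ‖∑ p ∈ D.anti g, D.σ p.1 p.2 * c p.1 * d p.2‖ * D.w i g
        ≤ (∑ p ∈ D.anti g, ‖D.σ p.1 p.2 * c p.1 * d p.2‖) * D.w i g :=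
          mul_le_mul_of_nonneg_right (norm_sum_le _ _) (D.w_pos i g).le
      _ = ∑ p ∈ D.anti g, (‖c p.1‖ * ‖d p.2‖) * D.w i g := by
          rw [Finset.sum_mul]
          apply Finset.sum_congr rfl
          intro p _
          rw [norm_mul, norm_mul, D.σ_norm, one_mul]
      _ ≤ _ := by
          apply Finset.sum_le_sum
          intro p hp
          have h2 := (D.mem_anti g p).1 hp
          have h3 := D.w_add i p.1 p.2
          rw [h2] at h3
          calc (‖c p.1‖ * ‖d p.2‖) * D.w i g
              ≤ (‖c p.1‖ * ‖d p.2‖) * (D.w i p.1 * D.w i p.2) :=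
                mul_le_mul_of_nonneg_left h3 (by positivity)
            _ = _ := by ring
  refine (Finset.sum_le_sum h1).trans ?_
  rw [← Finset.sum_biUnion]
  · set t := s.biUnion D.anti
    have h4 : t ⊆ (t.image Prod.fst) ×ˢ (t.image Prod.snd) := by
      intro p hp
      exact Finset.mem_product.2 ⟨Finset.mem_image_of_mem _ hp, Finset.mem_image_of_mem _ hp⟩
    have hn1 : ∀ g, 0 ≤ ‖c g‖ * D.w i g := fun g => by have := D.w_pos i g; positivity
    have hn2 : ∀ g, 0 ≤ ‖d g‖ * D.w i g := fun g => by have := D.w_pos i g; positivity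
    refine (Finset.sum_le_sum_of_subset_of_nonneg h4 ?_).trans ?_
    · intro p _ _
      exact mul_nonneg (hn1 _) (hn2 _)
    · rw [Finset.sum_product]
      simp_rw [← Finset.mul_sum]
      rw [← Finset.sum_mul]
      apply mul_le_mul
      · exact hc.sum_le_tsum _ (fun g _ => hn1 g)
      · exact hd.sum_le_tsum _ (fun g _ => hn2 g)
      · exact Finset.sum_nonneg fun g _ => hn2 g
      · exact tsum_nonneg hn1
  · intro a _ b _ hab
    rw [Function.onFun, Finset.disjoint_left]
    intro p hp hp'
    exact hab (((D.mem_anti a p).1 hp).symm.trans ((D.mem_anti b p).1 hp'))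

lemma conv_summable (c d : Γ → ℂ) (i : I) (hc : Summable fun g => ‖c g‖ * D.w i g)
    (hd : Summable fun g => ‖d g‖ * D.w i g) :
    Summable fun g => ‖D.conv c d g‖ * D.w i g :=
  summable_of_sum_le (fun g => by have := D.w_pos i g; positivity)
    (D.conv_sum_le c d i hc hd)

noncomputable instance : Mul D.Alg :=
  ⟨fun a b => ⟨D.conv a.1 b.1, fun i => D.conv_summable _ _ i (a.2 i) (b.2 i)⟩⟩

@[simp] lemma coeff_mul (a b : D.Alg) (g : Γ) :
    coeff (a * b) g = ∑ p ∈ D.anti g, D.σ p.1 p.2 * coeff a p.1 * coeff b p.2 := rfl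

lemma nrm_mul_le (i : I) (a b : D.Alg) : D.nrm i (a * b) ≤ D.nrm i a * D.nrm i b := by
  rw [nrm_def]
  exact (summable_coeff (a * b) i).tsum_le_of_sum_le
    (D.conv_sum_le a.1 b.1 i (a.2 i) (b.2 i))

open Classical in
/-- The basis element with index `m`. -/
noncomputable def mono (m : Γ) : D.Alg :=
  ⟨fun g => if g = m then 1 else 0, by
    intro i
    apply summable_of_ne_finset_zero (s := {m})
    intro g hg
    simp only [Finset.mem_singleton] at hg
    simp [hg]⟩

open Classical in
@[simp] lemma coeff_mono (m g : Γ) : coeff (D.mono m) g = if g = m then 1 else 0 := rfl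

noncomputable instance : One D.Alg := ⟨D.mono 0⟩

lemma one_def : (1 : D.Alg) = D.mono 0 := rfl

lemma mem_anti_zero_left (g : Γ) : ((0 : Γ), g) ∈ D.anti g := (D.mem_anti g _).2 (zero_add g)
lemma mem_anti_zero_right (g : Γ) : (g, (0 : Γ)) ∈ D.anti g := (D.mem_anti g _).2 (add_zero g)

protected lemma one_mul' (a : D.Alg) : 1 * a = a := by
  ext g
  rw [one_def, coeff_mul, Finset.sum_eq_single ((0 : Γ), g)]
  · simp [D.σ_zero_left]
  · rintro ⟨u, v⟩ hp hne
    have h := (D.mem_anti g _).1 hp
    simp only at h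
    have hu : u ≠ 0 := by
      rintro rfl
      apply hne
      rw [zero_add] at h
      rw [h]
    simp [hu]
  · intro h
    exact absurd (D.mem_anti_zero_left g) h

protected lemma mul_one' (a : D.Alg) : a * 1 = a := by
  ext g
  rw [one_def, coeff_mul, Finset.sum_eq_single (g, (0 : Γ))]
  · simp [D.σ_zero_right]
  · rintro ⟨u, v⟩ hp hne
    have h := (D.mem_anti g _).1 hp
    simp only at h
    have hu : v ≠ 0 := by
      rintro rfl
      apply hne
      rw [add_zero] at h
      rw [h]
    simp [hu]
  · intro h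
    exact absurd (D.mem_anti_zero_right g) h

protected lemma mul_assoc' (a b c : D.Alg) : a * b * c = a * (b * c) := by
  ext g
  simp only [coeff_mul, Finset.mul_sum, Finset.sum_mul]
  rw [Finset.sum_sigma', Finset.sum_sigma']
  refine Finset.sum_bij' (fun x _ => ⟨(x.2.1, x.2.2 + x.1.2), (x.2.2, x.1.2)⟩)
    (fun x _ => ⟨(x.1.1 + x.2.1, x.2.2), (x.1.1, x.2.1)⟩) ?_ ?_ ?_ ?_ ?_
  · rintro ⟨⟨u, v⟩, ⟨s, t⟩⟩ h
    simp only [Finset.mem_sigma, D.mem_anti] at h ⊢
    refine ⟨?_, trivial⟩
    rw [← add_assoc, h.2, h.1]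
  · rintro ⟨⟨u, v⟩, ⟨s, t⟩⟩ h
    simp only [Finset.mem_sigma, D.mem_anti] at h ⊢
    refine ⟨?_, trivial⟩
    rw [add_assoc, h.2, h.1]
  · rintro ⟨⟨u, v⟩, ⟨s, t⟩⟩ h
    simp only [Finset.mem_sigma, D.mem_anti] at h
    simp only [h.2]
  · rintro ⟨⟨u, v⟩, ⟨s, t⟩⟩ h
    simp only [Finset.mem_sigma, D.mem_anti] at h
    simp only [h.2]
  · rintro ⟨⟨u, v⟩, ⟨s, t⟩⟩ h
    simp only [Finset.mem_sigma, D.mem_anti] at h
    simp only
    have := D.σ_cocycle s t v
    rw [h.2] at this
    linear_combination (coeff a s * coeff b t * coeff c v) * this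

noncomputable instance : Ring D.Alg :=
  { (inferInstance : AddCommGroup D.Alg) with
    mul := (· * ·)
    one := 1
    one_mul := D.one_mul'
    mul_one := D.mul_one'
    mul_assoc := D.mul_assoc'
    zero_mul := by
      intro a; ext g; simp
    mul_zero := by
      intro a; ext g; simp
    left_distrib := by
      intro a b c; ext g
      simp only [coeff_mul, coeff_add, mul_add, Finset.sum_add_distrib]
    right_distrib := by
      intro a b c; ext g
      simp only [coeff_mul, coeff_add, mul_add, add_mul, Finset.sum_add_distrib] }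

noncomputable instance : Algebra ℂ D.Alg :=
  Algebra.ofModule
    (by
      intro z a b
      ext g
      simp only [coeff_mul, coeff_smul, Finset.mul_sum]
      apply Finset.sum_congr rfl
      intro p _
      ring)
    (by
      intro z a b
      ext g
      simp only [coeff_mul, coeff_smul, Finset.mul_sum]
      apply Finset.sum_congr rfl
      intro p _
      ring)

/-- The locally convex topology defined by the seminorms `nrm i`. -/
noncomputable instance [Nonempty I] : TopologicalSpace D.Alg :=
  (SeminormFamily.moduleFilterBasis D.nrm).topology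

end TwistData

/-! ### Entire functions of free variables -/

open Classical in
/-- The data of `𝓕(ℂ^m)`: words in `m` letters, trivial cocycle, weights `R ^ |w|`, `R > 0`. -/
noncomputable def freeData (m : ℕ) : TwistData (FreeAddMonoid (Fin m)) {R : ℝ // 0 < R} where
  anti g := (Finset.range ((FreeAddMonoid.toList g).length + 1)).image
    fun i => (FreeAddMonoid.ofList ((FreeAddMonoid.toList g).take i),
      FreeAddMonoid.ofList ((FreeAddMonoid.toList g).drop i))
  mem_anti := by
    intro g p
    simp only [Finset.mem_image, Finset.mem_range]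
    constructor
    · rintro ⟨i, _, rfl⟩
      simp only
      rw [← FreeAddMonoid.ofList_append, List.take_append_drop, FreeAddMonoid.ofList_toList]
    · rintro rfl
      refine ⟨(FreeAddMonoid.toList p.1).length, ?_, ?_⟩
      · rw [FreeAddMonoid.toList_add, List.length_append]
        omega
      · rw [FreeAddMonoid.toList_add, List.take_left, List.drop_left]
        simp
  σ _ _ := 1
  σ_norm := by simp
  σ_zero_left := by simp
  σ_zero_right := by simp
  σ_cocycle := by simp
  w R g := R.1 ^ (FreeAddMonoid.toList g).length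
  w_pos := by
    intro R g
    exact pow_pos R.2 _
  w_zero := by
    intro R
    simp
  w_add := by
    intro R a b
    rw [FreeAddMonoid.toList_add, List.length_append, pow_add]

/-- The algebra `𝓕(ℂ^m)` of free entire functions: families `c` indexed by the words in `m`
letters with `∑ |c w| R ^ |w| < ∞` for all `R > 0`, with the concatenation product. -/
abbrev FreeEntire (m : ℕ) : Type := (freeData m).Alg

/-! ### The quantum ball -/

/-- total degree -/
def deg {n : ℕ} (k : Fin n → ℕ) : ℕ := ∑ i, k i

lemma deg_add {n : ℕ} (k l : Fin n → ℕ) : deg (k + l) = deg k + deg l := by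
  simp [deg, Finset.sum_add_distrib]

/-- `∑_{i<j} l i * k j` -/
def twistExp {n : ℕ} (k l : Fin n → ℕ) : ℕ := ∑ j, ∑ i ∈ Finset.Iio j, l i * k j

lemma twistExp_add_left {n : ℕ} (k k' l : Fin n → ℕ) :
    twistExp (k + k') l = twistExp k l + twistExp k' l := by
  simp [twistExp, mul_add, Finset.sum_add_distrib]

lemma twistExp_add_right {n : ℕ} (k l l' : Fin n → ℕ) :
    twistExp k (l + l') = twistExp k l + twistExp k l' := by
  simp [twistExp, add_mul, Finset.sum_add_distrib]

/-- `k! / |k|!` -/
noncomputable def facQuot {n : ℕ} (k : Fin n → ℕ) : ℝ :=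
  (∏ i, ((k i).factorial : ℝ)) / ((deg k).factorial : ℝ)

lemma facQuot_pos {n : ℕ} (k : Fin n → ℕ) : 0 < facQuot k := by
  unfold facQuot
  positivity

lemma choose_mul_choose_le (a b c d : ℕ) :
    a.choose b * c.choose d ≤ (a + c).choose (b + d) := by
  rw [Nat.add_choose_eq]
  exact Finset.single_le_sum (f := fun ij : ℕ × ℕ => a.choose ij.1 * c.choose ij.2)
    (fun _ _ => Nat.zero_le _) (show ((b, d) : ℕ × ℕ) ∈ _ by simp)

lemma prod_choose_le {ι : Type} (s : Finset ι) (k l : ι → ℕ) :
    ∏ i ∈ s, (k i + l i).choose (k i) ≤ (∑ i ∈ s, (k i + l i)).choose (∑ i ∈ s, k i) := by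
  classical
  induction s using Finset.induction_on with
  | empty => simp
  | insert a s ha ih =>
    rw [Finset.prod_insert ha, Finset.sum_insert ha, Finset.sum_insert ha]
    exact (Nat.mul_le_mul_left _ ih).trans (choose_mul_choose_le _ _ _ _)

lemma facQuot_add {n : ℕ} (k l : Fin n → ℕ) :
    facQuot (k + l) ≤ facQuot k * facQuot l := by
  have h := prod_choose_le Finset.univ k l
  have h1 : ∀ i, (((k i + l i).choose (k i) : ℕ) : ℝ) =
      ((k i + l i).factorial : ℝ) / ((k i).factorial * (l i).factorial) := by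
    intro i
    exact Nat.cast_add_choose ℝ
  have h2 : (((∑ i, (k i + l i)).choose (∑ i, k i) : ℕ) : ℝ) =
      ((deg k + deg l).factorial : ℝ) / ((deg k).factorial * (deg l).factorial) := by
    rw [Finset.sum_add_distrib]
    exact Nat.cast_add_choose ℝ
  have h3 : (∏ i, (((k i + l i).factorial : ℝ) / ((k i).factorial * (l i).factorial))) ≤
      ((deg k + deg l).factorial : ℝ) / ((deg k).factorial * (deg l).factorial) := by
    rw [← h2]
    simp_rw [← h1]
    exact_mod_cast h
  rw [Finset.prod_div_distrib, Finset.prod_mul_distrib,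
    div_le_div_iff₀ (by positivity) (by positivity)] at h3
  unfold facQuot
  rw [deg_add, div_mul_div_comm, div_le_div_iff₀ (by positivity) (by positivity)]
  simp only [Pi.add_apply]
  linarith

/-- The data of the quantum ball algebra: exponents `k : Fin n → ℕ`, the cocycle given by
`x^k x^l = q^{-∑_{i<j} k_j l_i} x^{k+l}` (which encodes `x_i x_j = q x_j x_i` for `i < j`), and
the weights `(k!/|k|!)^{1/2} ρ^{|k|}` for `0 < ρ < r`. -/
noncomputable def ballData (n : ℕ) (r : ℝ) (q : Circle) :
    TwistData (Fin n → ℕ) {ρ : ℝ // 0 < ρ ∧ ρ < r} where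
  anti g := (Finset.Iic g).image fun a => (a, g - a)
  mem_anti := by
    intro g p
    simp only [Finset.mem_image, Finset.mem_Iic]
    constructor
    · rintro ⟨a, ha, rfl⟩
      exact add_tsub_cancel_of_le ha
    · rintro rfl
      refine ⟨p.1, le_self_add, ?_⟩
      rw [add_tsub_cancel_left]
  σ k l := ((q : ℂ)⁻¹) ^ twistExp k l
  σ_norm := by
    intro a b
    rw [norm_pow, norm_inv, Circle.norm_coe, inv_one, one_pow]
  σ_zero_left := by
    intro a
    simp [twistExp]
  σ_zero_right := by
    intro a
    simp [twistExp]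
  σ_cocycle := by
    intro a b c
    rw [← pow_add, ← pow_add, twistExp_add_left, twistExp_add_right]
    congr 1
    ring
  w ρ k := √(facQuot k) * ρ.1 ^ deg k
  w_pos := by
    intro ρ k
    exact mul_pos (Real.sqrt_pos.2 (facQuot_pos k)) (pow_pos ρ.2.1 _)
  w_zero := by
    intro ρ
    simp [facQuot, deg]
  w_add := by
    intro ρ a b
    rw [deg_add, pow_add]
    calc √(facQuot (a + b)) * (ρ.1 ^ deg a * ρ.1 ^ deg b)
        ≤ √(facQuot a * facQuot b) * (ρ.1 ^ deg a * ρ.1 ^ deg b) := by
          apply mul_le_mul_of_nonneg_right (Real.sqrt_le_sqrt (facQuot_add a b))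
          have := ρ.2.1
          positivity
      _ = _ := by
          rw [Real.sqrt_mul (facQuot_pos a).le]
          ring

/-- The quantum ball algebra `𝒪_q(𝔹^n_r)` for `|q| = 1` and `0 < r < ∞`. -/
abbrev QuantumBall (n : ℕ) (r : ℝ) (q : Circle) : Type := (ballData n r q).Alg

instance : Nonempty {R : ℝ // 0 < R} := ⟨⟨1, one_pos⟩⟩

instance (r : ℝ) [hr : Fact (0 < r)] : Nonempty {ρ : ℝ // 0 < ρ ∧ ρ < r} :=
  ⟨⟨r / 2, half_pos hr.out, half_lt_self hr.out⟩⟩

/-- A topological algebra `A` is holomorphically finitely generated if, for some `m`, it is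
isomorphic as a topological algebra to the quotient of `𝓕(ℂ^m)` by a closed two-sided ideal
`J` (the quotient carrying the quotient topology). -/
def IsHFG (A : Type) [Ring A] [Algebra ℂ A] [TopologicalSpace A] : Prop :=
  ∃ (m : ℕ) (J : TwoSidedIdeal (FreeEntire m)), IsClosed {a : FreeEntire m | a ∈ J} ∧
    ∃ e : J.ringCon.Quotient ≃ₐ[ℂ] A,
      @IsHomeomorph _ _ (TopologicalSpace.coinduced
        (fun a : FreeEntire m => (a : J.ringCon.Quotient)) inferInstance) inferInstance e

end Pool.Agent.LibHFG
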