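import Pool.Agent.LibHFG.Basic

open Finset

namespace Pool.Agent.LibHFG

open TwistData

set_option linter.unusedSectionVars false

section

variable {Γ : Type} [AddMonoid Γ] {I : Type} (D : TwistData Γ I) [Nonempty I] {m : ℕ}
  (a : Fin m → D.Alg)

/-- The value of a word on the tuple `a`. -/
noncomputable def evalWord (u : FreeAddMonoid (Fin m)) : D.Alg :=
  ((FreeAddMonoid.toList u).map a).prod

lemma evalWord_zero : evalWord D a 0 = 1 := by
  simp [evalWord]

lemma evalWord_add (u v : FreeAddMonoid (Fin m)) :
    evalWord D a (u + v) = evalWord D a u * evalWord D a v := by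
  simp [evalWord]

lemma nrm_list_prod_le (i : I) (R : ℝ) (hR : ∀ j, D.nrm i (a j) ≤ R) (hR0 : 0 ≤ R)
    (l : List (Fin m)) : D.nrm i ((l.map a).prod) ≤ R ^ l.length := by
  induction l with
  | nil => simp [nrm_one]
  | cons x l ih =>
    rw [List.map_cons, List.prod_cons, List.length_cons, pow_succ']
    refine (D.nrm_mul_le i _ _).trans ?_
    exact mul_le_mul (hR x) ih (apply_nonneg _ _) hR0

lemma nrm_evalWord_le (i : I) (R : {R : ℝ // 0 < R}) (hR : ∀ j, D.nrm i (a j) ≤ R.1)
    (u : FreeAddMonoid (Fin m)) : D.nrm i (evalWord D a u) ≤ (freeData m).w R u :=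
  nrm_list_prod_le D a i R.1 hR R.2.le _

/-- A radius bounding all the generators. -/
noncomputable def bigR (i : I) : {R : ℝ // 0 < R} :=
  ⟨1 + ∑ j, D.nrm i (a j), by
    have : 0 ≤ ∑ j, D.nrm i (a j) := Finset.sum_nonneg fun _ _ => apply_nonneg _ _
    linarith⟩

lemma le_bigR (i : I) (j : Fin m) : D.nrm i (a j) ≤ (bigR D a i).1 := by
  have : D.nrm i (a j) ≤ ∑ j, D.nrm i (a j) :=
    Finset.single_le_sum (f := fun j => D.nrm i (a j)) (fun _ _ => apply_nonneg _ _)
      (Finset.mem_univ j)
  simp only [bigR]
  linarith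

lemma summable_eval (ω : FreeEntire m) (i : I) :
    Summable fun u => D.nrm i (coeff ω u • evalWord D a u) := by
  refine Summable.of_nonneg_of_le (fun _ => apply_nonneg _ _) ?_
    (summable_coeff ω (bigR D a i))
  intro u
  rw [map_smul_eq_mul]
  exact mul_le_mul_of_nonneg_left (nrm_evalWord_le D a i _ (le_bigR D a i) u) (norm_nonneg _)

/-- Evaluation of a free entire function at the tuple `a`, as a linear map. -/
noncomputable def evalLin : FreeEntire m →ₗ[ℂ] D.Alg where
  toFun ω := tsumAlg (fun u => coeff ω u • evalWord D a u) (summable_eval D a ω)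
  map_add' := by
    intro ω η
    ext g
    rw [coeff_add, coeff_tsumAlg, coeff_tsumAlg, coeff_tsumAlg,
      ← (summable_coeff_family _ (summable_eval D a ω) g).tsum_add
        (summable_coeff_family _ (summable_eval D a η) g)]
    congr 1
    ext u
    simp only [coeff_smul, coeff_add]
    ring
  map_smul' := by
    intro z ω
    ext g
    rw [RingHom.id_apply, coeff_smul, coeff_tsumAlg, coeff_tsumAlg, ← tsum_mul_left]
    congr 1
    ext u
    simp only [coeff_smul]
    ring

lemma nrm_evalLin_le (i : I) (R : {R : ℝ // 0 < R}) (hR : ∀ j, D.nrm i (a j) ≤ R.1)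
    (ω : FreeEntire m) : D.nrm i (evalLin D a ω) ≤ (freeData m).nrm R ω := by
  refine (nrm_tsumAlg_le _ (summable_eval D a ω) i).trans ?_
  rw [nrm_def]
  refine (summable_eval D a ω i).tsum_le_tsum ?_ (summable_coeff ω R)
  intro u
  rw [map_smul_eq_mul]
  exact mul_le_mul_of_nonneg_left (nrm_evalWord_le D a i _ hR u) (norm_nonneg _)

lemma evalLin_mono (u : FreeAddMonoid (Fin m)) :
    evalLin D a ((freeData m).mono u) = evalWord D a u := by
  classical
  ext g
  show coeff (tsumAlg (fun v => coeff ((freeData m).mono u) v • evalWord D a v)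
    (summable_eval D a _)) g = _
  rw [coeff_tsumAlg, tsum_eq_single u]
  · simp
  · intro v hv
    simp [hv]

lemma evalLin_mul (ω η : FreeEntire m) :
    evalLin D a (ω * η) = evalLin D a ω * evalLin D a η := by
  classical
  have i : I := Classical.arbitrary I
  rw [← sub_eq_zero]
  apply eq_zero_of_nrm i
  set R := bigR D a i
  have hR := le_bigR D a i
  have hF : ∀ ω, D.nrm i (evalLin D a ω) ≤ (freeData m).nrm R ω := nrm_evalLin_le D a i R hR
  set B : FreeEntire m → FreeEntire m → D.Alg :=
    fun ω η => evalLin D a (ω * η) - evalLin D a ω * evalLin D a η with hB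
  have hB1 : ∀ ω η, D.nrm i (B ω η) ≤ 2 * ((freeData m).nrm R ω * (freeData m).nrm R η) := by
    intro ω η
    have h1 : D.nrm i (B ω η) ≤ D.nrm i (evalLin D a (ω * η)) +
        D.nrm i (evalLin D a ω * evalLin D a η) := map_sub_le_add _ _ _
    have h2 := (hF (ω * η)).trans ((freeData m).nrm_mul_le R ω η)
    have h3 := (D.nrm_mul_le i (evalLin D a ω) (evalLin D a η)).trans
      (mul_le_mul (hF ω) (hF η) (apply_nonneg _ _) (apply_nonneg _ _))
    linarith
  have hB2 : ∀ u v, B ((freeData m).mono u) ((freeData m).mono v) = 0 := by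
    intro u v
    simp only [hB]
    rw [mono_mul_mono, evalLin_mono, evalLin_mono, map_smul, evalLin_mono, evalWord_add]
    show (1 : ℂ) • _ - _ = 0
    rw [one_smul, sub_self]
  have hBadd : ∀ ω ω' η, B (ω + ω') η = B ω η + B ω' η := by
    intro ω ω' η
    simp only [hB, add_mul, map_add]
    abel
  have hBadd' : ∀ ω η η', B ω (η + η') = B ω η + B ω η' := by
    intro ω η η'
    simp only [hB, mul_add, map_add]
    abel
  have hBs : ∀ (z : ℂ) ω η, B (z • ω) η = z • B ω η := by
    intro z ω η
    simp only [hB, smul_mul_assoc, map_smul, smul_sub]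
  have hBs' : ∀ (z : ℂ) ω η, B ω (z • η) = z • B ω η := by
    intro z ω η
    simp only [hB, mul_smul_comm, map_smul, smul_sub]
  have hB3 : ∀ (s t : Finset (FreeAddMonoid (Fin m))) (c d : FreeAddMonoid (Fin m) → ℂ),
      B (∑ u ∈ s, c u • (freeData m).mono u) (∑ u ∈ t, d u • (freeData m).mono u) = 0 := by
    intro s t c d
    induction s using Finset.induction_on with
    | empty => simp [hB]
    | insert x s hx ih =>
      rw [Finset.sum_insert hx, hBadd, ih, add_zero, hBs]
      have : B ((freeData m).mono x) (∑ u ∈ t, d u • (freeData m).mono u) = 0 := by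
        clear ih
        induction t using Finset.induction_on with
        | empty => simp [hB]
        | insert y t hy ih =>
          rw [Finset.sum_insert hy, hBadd', ih, add_zero, hBs', hB2, smul_zero]
      rw [this, smul_zero]
  have key : ∀ δ > 0, D.nrm i (B ω η) ≤ δ := by
    intro δ hδ
    set W := (freeData m).nrm R ω with hW
    set E := (freeData m).nrm R η with hE
    have hW0 : 0 ≤ W := apply_nonneg _ _
    have hE0 : 0 ≤ E := apply_nonneg _ _
    set ε := min 1 (δ / (4 * (W + E + 2))) with hε
    have hε0 : 0 < ε := by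
      apply lt_min one_pos
      positivity
    obtain ⟨s, hs⟩ := exists_finset_expansion ω R hε0
    obtain ⟨t, ht⟩ := exists_finset_expansion η R hε0
    have hs' := hs s (Finset.Subset.refl _)
    have ht' := ht t (Finset.Subset.refl _)
    set ωs := ∑ g ∈ s, coeff ω g • (freeData m).mono g with hωs
    set ηt := ∑ g ∈ t, coeff η g • (freeData m).mono g with hηt
    have e1 : B ω η = B (ω - ωs) η + B ωs (η - ηt) := by
      have h1 : B ω η = B (ω - ωs) η + B ωs η := by
        rw [← hBadd, sub_add_cancel]
      have h2 : B ωs η = B ωs (η - ηt) + B ωs ηt := by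
        rw [← hBadd', sub_add_cancel]
      rw [h1, h2, hB3, add_zero]
    have e2 : (freeData m).nrm R ωs ≤ W + 1 := by
      have : ωs = ω - (ω - ωs) := by abel
      rw [this]
      refine (map_sub_le_add _ _ _).trans ?_
      have := min_le_left 1 (δ / (4 * (W + E + 2)))
      linarith
    rw [e1]
    refine (map_add_le_add _ _ _).trans ?_
    have h3 := hB1 (ω - ωs) η
    have h4 := hB1 ωs (η - ηt)
    have h5 : (freeData m).nrm R (ω - ωs) * E ≤ ε * E := mul_le_mul_of_nonneg_right hs' hE0
    have h6 : (freeData m).nrm R ωs * (freeData m).nrm R (η - ηt) ≤ (W + 1) * ε :=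
      mul_le_mul e2 ht' (apply_nonneg _ _) (by linarith)
    have h7 : ε * (4 * (W + E + 2)) ≤ δ := by
      have := min_le_right 1 (δ / (4 * (W + E + 2)))
      rwa [← hε, le_div_iff₀ (by positivity)] at this
    nlinarith
  exact le_antisymm (le_of_forall_pos_le_add fun δ hδ => by simpa using key δ hδ)
    (apply_nonneg _ _)

/-- Evaluation as an algebra homomorphism. -/
noncomputable def evalHom : FreeEntire m →ₐ[ℂ] D.Alg :=
  AlgHom.ofLinearMap (evalLin D a)
    (by
      rw [one_def, evalLin_mono, evalWord_zero])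
    (evalLin_mul D a)

lemma evalHom_apply (ω : FreeEntire m) : evalHom D a ω = evalLin D a ω := rfl

lemma nrm_evalHom_le (i : I) (R : {R : ℝ // 0 < R}) (hR : ∀ j, D.nrm i (a j) ≤ R.1)
    (ω : FreeEntire m) : D.nrm i (evalHom D a ω) ≤ (freeData m).nrm R ω :=
  nrm_evalLin_le D a i R hR ω

/-- letters of the free algebra -/
noncomputable def letter (j : Fin m) : FreeEntire m := (freeData m).mono (FreeAddMonoid.of j)

lemma nrm_letter (j : Fin m) (R : {R : ℝ // 0 < R}) : (freeData m).nrm R (letter j) = R.1 := by
  rw [letter, nrm_mono]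
  simp [freeData]

lemma evalHom_letter (j : Fin m) : evalHom D a (letter j) = a j := by
  rw [evalHom_apply, letter, evalLin_mono]
  simp [evalWord]

end

end Pool.Agent.LibHFG
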