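import Pool.Agent.LibHFG.Stage
import Pool.Agent.LibHFG.Concl

open Finset

namespace Pool.Agent.LibHFG

open TwistData

set_option linter.unusedSectionVars false

/-- The data of one stage of the construction. -/
structure SD (n : ℕ) where
  Q : ℕ
  L : ℕ
  K : ℕ
  β : (Fin n → ℕ) → ℝ

section

variable {n : ℕ}

/-- total size of a stage at radius `ρ` -/
noncomputable def SD.tot (s : SD n) (ρ : ℝ) : ℝ := ∑ k ∈ GQ n s.Q, s.β k * vw ρ (s.L • k)

/-- radii increasing to `r` -/
noncomputable def rad (r : ℝ) (i : ℕ) : ℝ := r * (1 - 1 / ((i : ℝ) + 2))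

lemma rad_pos {r : ℝ} (hr : 0 < r) (i : ℕ) : 0 < rad r i := by
  unfold rad
  apply mul_pos hr
  have : (0 : ℝ) ≤ i := Nat.cast_nonneg i
  rw [sub_pos, div_lt_one (by positivity)]
  linarith

lemma rad_lt {r : ℝ} (hr : 0 < r) (i : ℕ) : rad r i < r := by
  unfold rad
  have : (0 : ℝ) < 1 / ((i : ℝ) + 2) := by positivity
  nlinarith

lemma rad_lt_rad {r : ℝ} (hr : 0 < r) {i j : ℕ} (h : i < j) : rad r i < rad r j := by
  unfold rad
  have h1 : (1 : ℝ) / ((j : ℝ) + 2) < 1 / ((i : ℝ) + 2) := by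
    apply one_div_lt_one_div_of_lt (by positivity)
    have : (i : ℝ) < j := by exact_mod_cast h
    linarith
  nlinarith

lemma rad_le_rad {r : ℝ} (hr : 0 < r) {i j : ℕ} (h : i ≤ j) : rad r i ≤ rad r j := by
  rcases h.lt_or_eq with h | h
  · exact (rad_lt_rad hr h).le
  · rw [h]

lemma exists_rad {r ρ : ℝ} (_hr : 0 < r) (h : ρ < r) : ∃ i : ℕ, ρ ≤ rad r i := by
  obtain ⟨i, hi⟩ := exists_nat_ge (r / (r - ρ))
  refine ⟨i, ?_⟩
  unfold rad
  have h1 : 0 < r - ρ := by linarith
  rw [div_le_iff₀ h1] at hi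
  have h2 : (0 : ℝ) ≤ i := Nat.cast_nonneg i
  have h3 : r * (1 / ((i : ℝ) + 2)) ≤ r - ρ := by
    rw [mul_one_div, div_le_iff₀ (by positivity)]
    nlinarith
  linarith

lemma vw_mono {ρ ρ' : ℝ} (h0 : 0 ≤ ρ) (h : ρ ≤ ρ') (k : Fin n → ℕ) : vw ρ k ≤ vw ρ' k :=
  mul_le_mul_of_nonneg_left (pow_le_pow_left₀ h0 h _) (Real.sqrt_nonneg _)

lemma SD.tot_mono (s : SD n) (hs : ∀ k, 0 < s.β k) {ρ ρ' : ℝ} (h0 : 0 ≤ ρ) (h : ρ ≤ ρ') :
    s.tot ρ ≤ s.tot ρ' :=
  Finset.sum_le_sum fun k _ => mul_le_mul_of_nonneg_left (vw_mono h0 h _) (hs k).le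

lemma SD.tot_nonneg (s : SD n) (hs : ∀ k, 0 < s.β k) {ρ : ℝ} (h0 : 0 ≤ ρ) : 0 ≤ s.tot ρ :=
  Finset.sum_nonneg fun k _ => mul_nonneg (hs k).le
    (mul_nonneg (Real.sqrt_nonneg _) (pow_nonneg h0 _))

/-- The properties required of stage `j`, when the earlier stages have total size `S`. -/
def Spec (r : ℝ) (j : ℕ) (S : ℝ) (s : SD n) : Prop :=
  (∀ k, 0 < s.β k) ∧ s.tot (rad r (3 * j)) ≤ (1 / 2) ^ (j + 1) ∧
    ∀ m, s.K ≤ deg m → ∃ k ∈ GQ n s.Q, s.L • k ≤ m ∧ ∀ ρ, rad r (3 * j + 2) ≤ ρ →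
      (8 * (j + 1 + S)) * vw ρ (m - s.L • k) ≤ s.β k * vw ρ m ∧
      ∑ k' ∈ (GQ n s.Q).filter (fun k' => k' ≠ k ∧ ∀ i, k' i % 2 = k i % 2),
        s.β k' * vw ρ (m - s.L • k + s.L • k') ≤ 1 / 8 * (s.β k * vw ρ m)

lemma exists_spec (hn : 0 < n) {r : ℝ} (hr : 0 < r) (j : ℕ) (S : {S : ℝ // 0 ≤ S}) :
    ∃ s : SD n, Spec r j S.1 s := by
  have hS := S.2
  obtain ⟨Q, L, K, _, β, h1, h2, h3⟩ := stage hn (rad_pos hr (3 * j))
    (rad_lt_rad hr (show 3 * j < 3 * j + 1 by omega))
    (rad_lt_rad hr (show 3 * j + 1 < 3 * j + 2 by omega))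
    (T := 8 * (j + 1 + S.1)) (ε := (1 / 2) ^ (j + 1)) (by positivity) (by positivity)
  exact ⟨⟨Q, L, K, β⟩, h1, h2, h3⟩

lemma exists_seq (hn : 0 < n) {r : ℝ} (hr : 0 < r) :
    ∃ sd : ℕ → SD n, ∀ j, Spec r j (∑ i ∈ range j, (sd i).tot r) (sd j) := by
  choose pick hpick using fun j S => exists_spec (n := n) hn hr j S
  set F : ℕ → {S : ℝ // 0 ≤ S} := fun j => Nat.rec ⟨0, le_rfl⟩
    (fun j S => ⟨S.1 + (pick j S).tot r,
      add_nonneg S.2 ((pick j S).tot_nonneg (hpick j S).1 hr.le)⟩) j with hF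
  have hF0 : (F 0).1 = 0 := rfl
  have hFs : ∀ j, (F (j + 1)).1 = (F j).1 + (pick j (F j)).tot r := fun j => rfl
  have hsum : ∀ j, ∑ i ∈ range j, (pick i (F i)).tot r = (F j).1 := by
    intro j
    induction j with
    | zero => rw [Finset.sum_range_zero, hF0]
    | succ j ih => rw [Finset.sum_range_succ, ih, hFs]
  refine ⟨fun j => pick j (F j), fun j => ?_⟩
  rw [hsum]
  exact hpick j (F j)

end

section

variable {n : ℕ} {r : ℝ} {q : Circle}

lemma ball_w_eq (ρ : Rad r) (g : Fin n → ℕ) : (ballData n r q).w ρ g = vw ρ.1 g := rfl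

/-- A finite block of a generator. -/
noncomputable def block (r : ℝ) (q : Circle) (s : SD n) (c : Fin n → Fin 2) :
    QuantumBall n r q :=
  ∑ k ∈ (GQ n s.Q).filter (fun k => ∀ i, k i % 2 = (c i : ℕ)),
    ((s.β k : ℝ) : ℂ) • (ballData n r q).mono (s.L • k)

lemma nrm_sum_le {ι : Type} (ρ : Rad r) (s : Finset ι) (u : ι → QuantumBall n r q) :
    (ballData n r q).nrm ρ (∑ j ∈ s, u j) ≤ ∑ j ∈ s, (ballData n r q).nrm ρ (u j) := by
  classical
  induction s using Finset.induction_on with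
  | empty => simp
  | insert x s hx ih =>
    rw [Finset.sum_insert hx, Finset.sum_insert hx]
    exact (map_add_le_add _ _ _).trans (by linarith)

lemma nrm_block_le (s : SD n) (hs : ∀ k, 0 < s.β k) (c : Fin n → Fin 2) (ρ : Rad r) :
    (ballData n r q).nrm ρ (block r q s c) ≤ s.tot ρ.1 := by
  unfold block SD.tot
  refine (nrm_sum_le _ _ _).trans ?_
  have h1 : ∀ k ∈ (GQ n s.Q).filter (fun k => ∀ i, k i % 2 = (c i : ℕ)),
      (ballData n r q).nrm ρ (((s.β k : ℝ) : ℂ) • (ballData n r q).mono (s.L • k)) ≤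
        s.β k * vw ρ.1 (s.L • k) := by
    intro k _
    rw [nrm_smul_mono, Complex.norm_real, Real.norm_eq_abs, abs_of_pos (hs k), ball_w_eq]
  refine (Finset.sum_le_sum h1).trans ?_
  apply Finset.sum_le_sum_of_subset_of_nonneg (Finset.filter_subset _ _)
  intro k _ _
  exact mul_nonneg (hs k).le (vw_pos ρ.2.1 _).le

lemma block_mul (s : SD n) (hs : ∀ k, 0 < s.β k) (c : Fin n → Fin 2) (ρ : Rad r)
    {k : Fin n → ℕ} (hk : k ∈ GQ n s.Q) (hc : ∀ i, k i % 2 = (c i : ℕ)) (M : Fin n → ℕ) :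
    (ballData n r q).nrm ρ (block r q s c * (ballData n r q).mono M -
      (((s.β k : ℝ) : ℂ) * (ballData n r q).σ (s.L • k) M) •
        (ballData n r q).mono (s.L • k + M)) ≤
      ∑ k' ∈ (GQ n s.Q).filter (fun k' => k' ≠ k ∧ ∀ i, k' i % 2 = k i % 2),
        s.β k' * vw ρ.1 (M + s.L • k') := by
  classical
  set F := (GQ n s.Q).filter (fun k => ∀ i, k i % 2 = (c i : ℕ)) with hF
  set F' := (GQ n s.Q).filter (fun k' => k' ≠ k ∧ ∀ i, k' i % 2 = k i % 2) with hF'
  have hkF : k ∈ F := by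
    rw [hF, Finset.mem_filter]
    exact ⟨hk, hc⟩
  have hins : F = insert k F' := by
    ext x
    simp only [hF, hF', Finset.mem_insert, Finset.mem_filter]
    constructor
    · rintro ⟨h1, h2⟩
      by_cases hx : x = k
      · left; exact hx
      · right
        exact ⟨h1, hx, fun i => by rw [h2 i, hc i]⟩
    · rintro (h | ⟨h1, _, h3⟩)
      · rw [h]; exact ⟨hk, hc⟩
      · exact ⟨h1, fun i => by rw [h3 i, hc i]⟩
  have hnot : k ∉ F' := by
    simp [hF']
  have h1 : block r q s c * (ballData n r q).mono M -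
      (((s.β k : ℝ) : ℂ) * (ballData n r q).σ (s.L • k) M) •
        (ballData n r q).mono (s.L • k + M) =
      ∑ k' ∈ F', (((s.β k' : ℝ) : ℂ) * (ballData n r q).σ (s.L • k') M) •
        (ballData n r q).mono (s.L • k' + M) := by
    unfold block
    rw [← hF, hins, Finset.sum_insert hnot, add_mul, Finset.sum_mul]
    simp_rw [smul_mul_assoc, mono_mul_mono, smul_smul]
    rw [add_sub_cancel_left]
  rw [h1]
  refine (nrm_sum_le _ _ _).trans (Finset.sum_le_sum fun k' _ => ?_)
  rw [nrm_smul_mono, norm_mul, (ballData n r q).σ_norm, mul_one, Complex.norm_real,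
    Real.norm_eq_abs, abs_of_pos (hs k'), ball_w_eq, add_comm]

/-- The summands of a generator. -/
noncomputable def fam (r : ℝ) (q : Circle) (sd : ℕ → SD n) (a : Fin 2) (c : Fin n → Fin 2)
    (j : ℕ) : QuantumBall n r q :=
  if j % 2 = (a : ℕ) then block r q (sd j) c else 0

section fam

variable {sd : ℕ → SD n} (hr : 0 < r)
  (hsd : ∀ j, Spec r j (∑ i ∈ range j, (sd i).tot r) (sd j))

include hsd in
lemma nrm_fam_le (a : Fin 2) (c : Fin n → Fin 2) (j : ℕ) (ρ : Rad r) :
    (ballData n r q).nrm ρ (fam r q sd a c j) ≤ (sd j).tot ρ.1 := by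
  unfold fam
  split_ifs
  · exact nrm_block_le _ (hsd j).1 _ _
  · rw [map_zero]
    exact (sd j).tot_nonneg (hsd j).1 ρ.2.1.le

include hr hsd in
lemma nrm_fam_le_half (a : Fin 2) (c : Fin n → Fin 2) (j : ℕ) (ρ : Rad r)
    (h : ρ.1 ≤ rad r (3 * j)) :
    (ballData n r q).nrm ρ (fam r q sd a c j) ≤ 1 / 2 * (1 / 2) ^ j := by
  refine (nrm_fam_le hsd a c j ρ).trans (((sd j).tot_mono (hsd j).1 ρ.2.1.le h).trans ?_)
  refine (hsd j).2.1.trans (le_of_eq ?_)
  rw [pow_succ]; ring

include hr hsd in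
lemma summable_fam (a : Fin 2) (c : Fin n → Fin 2) (ρ : Rad r) :
    Summable fun j => (ballData n r q).nrm ρ (fam r q sd a c j) := by
  obtain ⟨i, hi⟩ := exists_rad hr ρ.2.2
  rw [← summable_nat_add_iff i]
  have hgeo : Summable fun j : ℕ => 1 / 2 * (1 / 2 : ℝ) ^ (j + i) :=
    ((summable_nat_add_iff i).2
      (summable_geometric_of_lt_one (by norm_num) (by norm_num))).mul_left _
  refine Summable.of_nonneg_of_le (fun _ => apply_nonneg _ _) ?_ hgeo
  intro j
  exact nrm_fam_le_half hr hsd a c (j + i) ρ (hi.trans (rad_le_rad hr (by omega)))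

variable [Fact (0 < r)]

/-- A generator. -/
noncomputable def gf (hsd : ∀ j, Spec r j (∑ i ∈ range j, (sd i).tot r) (sd j))
    (q : Circle) (a : Fin 2) (c : Fin n → Fin 2) : QuantumBall n r q :=
  tsumAlg (fam r q sd a c) (summable_fam (Fact.out : 0 < r) hsd a c)

include hr in
lemma nrm_gf_sub (a : Fin 2) (c : Fin n → Fin 2) (J : ℕ) (hJ : J % 2 = (a : ℕ)) (ρ : Rad r)
    (hρ : ρ.1 ≤ rad r (3 * (J + 2))) :
    (ballData n r q).nrm ρ (gf hsd q a c - block r q (sd J) c) ≤
      (∑ i ∈ range J, (sd i).tot r) + 1 := by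
  have h1 := nrm_tsumAlg_sub_le (fam r q sd a c) (summable_fam hr hsd a c) ρ {J}
  rw [Finset.sum_singleton, Finset.sum_singleton] at h1
  have h2 : fam r q sd a c J = block r q (sd J) c := by
    unfold fam
    rw [if_pos hJ]
  rw [← h2]
  refine h1.trans ?_
  set V := (ballData n r q).nrm ρ (fam r q sd a c J) with hV
  have hgeo : Summable fun j : ℕ => 1 / 2 * (1 / 2 : ℝ) ^ j :=
    (summable_geometric_of_lt_one (by norm_num) (by norm_num)).mul_left _
  have hb : ∀ j, (ballData n r q).nrm ρ (fam r q sd a c j) ≤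
      (if j = J then V else 0) + ((if j ∈ range J then (sd j).tot r else 0) +
        1 / 2 * (1 / 2) ^ j) := by
    intro j
    have hp : (0 : ℝ) ≤ 1 / 2 * (1 / 2) ^ j := by positivity
    rcases lt_trichotomy j J with h | h | h
    · rw [if_neg h.ne, if_pos (mem_range.2 h)]
      have := (nrm_fam_le (q := q) hsd a c j ρ).trans
        ((sd j).tot_mono (hsd j).1 ρ.2.1.le ρ.2.2.le)
      linarith
    · subst h
      rw [if_pos rfl, if_neg (by simp)]
      linarith
    · rw [if_neg h.ne', if_neg (by rw [mem_range]; omega)]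
      rcases Nat.lt_or_ge j (J + 2) with h3 | h3
      · have h4 : j = J + 1 := by omega
        have h5 : fam r q sd a c j = 0 := by
          unfold fam
          rw [if_neg]
          have := a.2
          omega
        rw [h5, map_zero]
        linarith
      · have := nrm_fam_le_half (q := q) hr hsd a c j ρ (hρ.trans (rad_le_rad hr (by omega)))
        linarith
  have hs1 : Summable fun j => (if j = J then V else 0) :=
    summable_of_ne_finset_zero (s := {J}) (fun j hj => by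
      rw [if_neg]; simpa using hj)
  have hs2 : Summable fun j => (if j ∈ range J then (sd j).tot r else 0) :=
    summable_of_ne_finset_zero (s := range J) (fun j hj => by
      rw [if_neg]; simpa using hj)
  have h3 := (summable_fam (q := q) hr hsd a c ρ).tsum_le_tsum hb (hs1.add (hs2.add hgeo))
  rw [hs1.tsum_add (hs2.add hgeo), hs2.tsum_add hgeo, tsum_ite_eq, tsum_mul_left,
    tsum_geometric_two] at h3
  have h4 : ∑' j, (if j ∈ range J then (sd j).tot r else 0) = ∑ i ∈ range J, (sd i).tot r := by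
    rw [tsum_eq_sum (s := range J) (fun j hj => by rw [if_neg hj])]
    exact Finset.sum_congr rfl fun j hj => by rw [if_pos hj]
  rw [h4] at h3
  linarith

lemma deg_le_of_coeff_mul_mono (x : QuantumBall n r q) (M h : Fin n → ℕ)
    (hh : coeff (x * (ballData n r q).mono M) h ≠ 0) : deg M ≤ deg h := by
  classical
  rw [coeff_mul] at hh
  obtain ⟨p, hp, hp'⟩ := Finset.exists_ne_zero_of_sum_ne_zero hh
  have h1 := ((ballData n r q).mem_anti h p).1 hp
  have h2 : p.2 = M := by
    by_contra hne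
    apply hp'
    rw [coeff_mono, if_neg hne, mul_zero]
  rw [← h1, h2, deg_add]
  exact Nat.le_add_left _ _

include hr in
/-- The domination property. -/
lemma dom_gf {ι : Type} [Fintype ι] {m : ℕ} (a' : Fin m → QuantumBall n r q)
    (ha' : ∀ a c, ∃ j, a' j = gf hsd q a c) (R : PR) (J : ℕ) (hJ : R.1 ≤ J) (ρ : Rad r)
    (h1 : rad r (3 * J + 2) ≤ ρ.1) (h2 : ρ.1 ≤ rad r (3 * (J + 2))) :
    Dom a' deg R ρ (sd J).K ((sd J).L * (sd J).Q + 1) := by
  intro g hg
  set S := ∑ i ∈ range J, (sd i).tot r with hS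
  have hS0 : 0 ≤ S := Finset.sum_nonneg fun i _ => (sd i).tot_nonneg (hsd i).1 hr.le
  obtain ⟨hβ, _, hst⟩ := hsd J
  obtain ⟨k, hk, hle, hk2⟩ := hst g hg
  obtain ⟨hk3, hk4⟩ := hk2 ρ.1 h1
  rw [← hS] at hk3
  set s := sd J with hs
  set M := g - s.L • k with hM
  have hgM : s.L • k + M = g := by
    rw [hM]; exact add_tsub_cancel_of_le hle
  set a : Fin 2 := ⟨J % 2, Nat.mod_lt _ (by norm_num)⟩ with ha
  set c : Fin n → Fin 2 := fun i => ⟨k i % 2, Nat.mod_lt _ (by norm_num)⟩ with hc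
  obtain ⟨j, hj⟩ := ha' a c
  set β : ℂ := ((s.β k : ℝ) : ℂ) * (ballData n r q).σ (s.L • k) M with hβdef
  have hβn : ‖β‖ = s.β k := by
    rw [hβdef, norm_mul, (ballData n r q).σ_norm, mul_one, Complex.norm_real,
      Real.norm_eq_abs, abs_of_pos (hβ k)]
  have hdeg : deg g = s.L * s.Q + deg M := by
    rw [← hgM, deg_add, deg_nsmul, mem_GQ.1 hk]
  refine ⟨j, M, β, ?_, by omega, ?_⟩
  · have e1 : a' j * (ballData n r q).mono M - β • (ballData n r q).mono g =
        (gf hsd q a c - block r q s c) * (ballData n r q).mono M +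
        (block r q s c * (ballData n r q).mono M - β • (ballData n r q).mono (s.L • k + M)) := by
      rw [hj, hgM, sub_mul]
      abel
    have e2 : (ballData n r q).nrm ρ ((gf hsd q a c - block r q s c) *
        (ballData n r q).mono M) ≤ (S + 1) * vw ρ.1 M := by
      refine ((ballData n r q).nrm_mul_le ρ _ _).trans ?_
      rw [nrm_mono, ball_w_eq]
      exact mul_le_mul_of_nonneg_right (nrm_gf_sub hr hsd a c J rfl ρ h2)
        (vw_pos ρ.2.1 _).le
    have e3 := block_mul (q := q) s hβ c ρ hk (fun i => rfl) M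
    rw [← hβdef] at e3
    have e4 := e3.trans hk4
    have e5 : (ballData n r q).nrm ρ (a' j * (ballData n r q).mono M -
        β • (ballData n r q).mono g) ≤ (S + 1) * vw ρ.1 M + 1 / 8 * (s.β k * vw ρ.1 g) := by
      rw [e1]
      exact (map_add_le_add _ _ _).trans (add_le_add e2 e4)
    rw [ball_w_eq, ball_w_eq, hβn]
    have hvM := vw_pos ρ.2.1 M
    have hvg := vw_pos ρ.2.1 g
    have hβk := hβ k
    have e6 : R.1 * vw ρ.1 M ≤ J * vw ρ.1 M := mul_le_mul_of_nonneg_right hJ hvM.le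
    nlinarith [mul_pos hβk hvg]
  · intro h hh
    rw [coeff_sub, coeff_smul] at hh
    have h3 : coeff (a' j * (ballData n r q).mono M) h ≠ 0 ∨
        coeff ((ballData n r q).mono g) h ≠ 0 := by
      by_contra hcon
      push Not at hcon
      rw [hcon.1, hcon.2, mul_zero, sub_zero] at hh
      exact hh rfl
    rcases h3 with h3 | h3
    · have := deg_le_of_coeff_mul_mono _ _ _ h3
      omega
    · have : h = g := by
        by_contra hne
        rw [coeff_mono, if_neg hne] at h3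
        exact h3 rfl
      rw [this]
      omega

end fam

/-- Every monomial is a value of a free entire function. -/
lemma gen_of_vars [Fact (0 < r)] {m : ℕ} (a' : Fin m → QuantumBall n r q)
    (ha' : ∀ i : Fin n, ∃ j, a' j = (ballData n r q).mono (Pi.single i 1)) (g : Fin n → ℕ) :
    ∃ ω : FreeEntire m, evalHom (ballData n r q) a' ω = (ballData n r q).mono g := by
  induction hN : deg g generalizing g with
  | zero =>
    have hg : g = 0 := by
      funext i
      have := le_deg g i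
      rw [hN] at this
      simpa using this
    refine ⟨1, ?_⟩
    rw [map_one, hg]
    rfl
  | succ N ih =>
    have hex : ∃ i, 0 < g i := by
      by_contra hcon
      push Not at hcon
      have : deg g = 0 := by
        unfold deg
        apply Finset.sum_eq_zero
        intro i _
        have := hcon i
        omega
      omega
    obtain ⟨i, hi⟩ := hex
    have hle : Pi.single i 1 ≤ g := by
      intro x
      by_cases hx : x = i
      · subst hx
        simpa using Nat.succ_le_of_lt hi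
      · simp [hx]
    have hg : Pi.single i 1 + (g - Pi.single i 1) = g := add_tsub_cancel_of_le hle
    have hd : deg (g - Pi.single i 1) = N := by
      have h1 : deg (Pi.single i 1 + (g - Pi.single i 1)) = deg g := by rw [hg]
      rw [deg_add, hN] at h1
      have h2 : deg (Pi.single i 1 : Fin n → ℕ) = 1 := by simp [deg]
      omega
    obtain ⟨ω, hω⟩ := ih _ hd
    obtain ⟨j, hj⟩ := ha' i
    have hσ : (ballData n r q).σ (Pi.single i 1) (g - Pi.single i 1) ≠ 0 := by
      rw [← norm_pos_iff, (ballData n r q).σ_norm]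
      exact one_pos
    refine ⟨((ballData n r q).σ (Pi.single i 1) (g - Pi.single i 1))⁻¹ • (letter j * ω), ?_⟩
    rw [map_smul, map_mul, evalHom_letter, hj, hω, mono_mul_mono, hg, smul_smul,
      inv_mul_cancel₀ hσ, one_smul]

/-- The quantum ball algebra is holomorphically finitely generated. -/
theorem isHFG_quantumBall (hn : 0 < n) [hr : Fact (0 < r)] : IsHFG (QuantumBall n r q) := by
  obtain ⟨sd, hsd⟩ := exists_seq (n := n) hn hr.out
  set ι := Fin n ⊕ (Fin 2 × (Fin n → Fin 2)) with hι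
  set e := Fintype.equivFin ι with he
  set G : ι → QuantumBall n r q := fun x => match x with
    | Sum.inl i => (ballData n r q).mono (Pi.single i 1)
    | Sum.inr (a, c) => gf hsd q a c with hG
  set a' : Fin (Fintype.card ι) → QuantumBall n r q := fun j => G (e.symm j) with ha'
  apply isHFG_of_good (a := a')
  constructor
  · apply gen_of_vars
    intro i
    refine ⟨e (Sum.inl i), ?_⟩
    simp [ha', hG]
  · refine ⟨fun i => ⟨rad r (3 * i + 2), rad_pos hr.out _, rad_lt hr.out _⟩, ?_, ?_, ?_⟩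
    · intro i
      exact rad_le_rad hr.out (by omega)
    · intro ρ
      obtain ⟨i, hi⟩ := exists_rad hr.out ρ.2.2
      exact ⟨i, hi.trans (rad_le_rad hr.out (by omega))⟩
    · intro R
      obtain ⟨J₀, hJ₀⟩ := exists_nat_ge R.1
      refine ⟨J₀, fun J hJ => ⟨(sd J).K, (sd J).L * (sd J).Q + 1, by omega, ?_⟩⟩
      intro ρ h1 h2
      apply dom_gf (ι := ι) hr.out hsd a' _ R J (hJ₀.trans (by exact_mod_cast hJ)) ρ h1
        (h2.trans (rad_le_rad hr.out (by omega)))
      intro a c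
      refine ⟨e (Sum.inr (a, c)), ?_⟩
      simp [ha', hG]

end

end Pool.Agent.LibHFG
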