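import Pool.Agent.LibHFG.Approx

open Finset

namespace Pool.Agent.LibHFG

open TwistData

set_option linter.unusedSectionVars false

/-- The radii below `r`. -/
abbrev Rad (r : ℝ) : Type := {ρ : ℝ // 0 < ρ ∧ ρ < r}

/-- Positive radii. -/
abbrev PR : Type := {R : ℝ // 0 < R}

lemma free_w_mono {m : ℕ} {R R' : PR} (h : R.1 ≤ R'.1) (u : FreeAddMonoid (Fin m)) :
    (freeData m).w R u ≤ (freeData m).w R' u := by
  show R.1 ^ _ ≤ R'.1 ^ _
  exact pow_le_pow_left₀ R.2.le h _

lemma free_nrm_mono {m : ℕ} {R R' : PR} (h : R.1 ≤ R'.1) (ω : FreeEntire m) :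
    (freeData m).nrm R ω ≤ (freeData m).nrm R' ω := by
  rw [nrm_def, nrm_def]
  refine (summable_coeff ω R).tsum_le_tsum ?_ (summable_coeff ω R')
  intro u
  exact mul_le_mul_of_nonneg_left (free_w_mono h u) (norm_nonneg _)

section

variable {n : ℕ} {r : ℝ} {q : Circle}

lemma ball_w (ρ : Rad r) (g : Fin n → ℕ) :
    (ballData n r q).w ρ g = √(facQuot g) * ρ.1 ^ deg g := rfl

lemma ball_w_mono {ρ ρ' : Rad r} (h : ρ.1 ≤ ρ'.1) (g : Fin n → ℕ) :
    (ballData n r q).w ρ g ≤ (ballData n r q).w ρ' g := by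
  rw [ball_w, ball_w]
  exact mul_le_mul_of_nonneg_left (pow_le_pow_left₀ ρ.2.1.le h _) (Real.sqrt_nonneg _)

lemma ball_nrm_mono {ρ ρ' : Rad r} (h : ρ.1 ≤ ρ'.1) (x : QuantumBall n r q) :
    (ballData n r q).nrm ρ x ≤ (ballData n r q).nrm ρ' x := by
  rw [nrm_def, nrm_def]
  refine (summable_coeff x ρ).tsum_le_tsum ?_ (summable_coeff x ρ')
  intro u
  exact mul_le_mul_of_nonneg_left (ball_w_mono h u) (norm_nonneg _)

lemma ball_w_ratio (ρ ρ' : Rad r) (g : Fin n → ℕ) :
    (ballData n r q).w ρ g = (ρ.1 / ρ'.1) ^ deg g * (ballData n r q).w ρ' g := by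
  rw [ball_w, ball_w, div_pow]
  have := (pow_pos ρ'.2.1 (deg g)).ne'
  field_simp

variable {m : ℕ} [Fact (0 < r)] {a : Fin m → QuantumBall n r q}

lemma Ap.mono_R {R R' : PR} {ρ : Rad r} {x : QuantumBall n r q} {c : ℝ}
    (h : Ap (ballData n r q) a R' ρ x c) (hR : R.1 ≤ R'.1) : Ap (ballData n r q) a R ρ x c := by
  intro δ hδ
  obtain ⟨ω, h1, h2⟩ := h δ hδ
  exact ⟨ω, (free_nrm_mono hR ω).trans h1, h2⟩

lemma finite_deg_lt (K : ℕ) : {g : Fin n → ℕ | deg g < K}.Finite := by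
  apply (Set.finite_Iic (fun _ : Fin n => K)).subset
  intro g hg
  rw [Set.mem_Iic]
  intro i
  have h1 : g i ≤ deg g := Finset.single_le_sum (f := g) (fun _ _ => Nat.zero_le _)
    (Finset.mem_univ i)
  exact h1.trans (le_of_lt hg)

/-- Step (1'). -/
lemma step1 (hgen : ∀ g, ∃ ω : FreeEntire m, evalHom (ballData n r q) a ω =
      (ballData n r q).mono g) (R : PR) (ρ ρ₂ : Rad r) (hρ : ρ.1 ≤ ρ₂.1)
    (hR : ∀ j, (ballData n r q).nrm ρ (a j) ≤ R.1) {K L : ℕ}
    (hD : Dom a deg R ρ₂ K L) :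
    ∃ C : ℝ, ∀ g, Ap (ballData n r q) a R ρ ((ballData n r q).mono g)
      (C * (ballData n r q).w ρ₂ g) := by
  classical
  choose W hW using hgen
  set F := (finite_deg_lt (n := n) K).toFinset with hF
  set C₀ : ℝ := 1 + ∑ g ∈ F, (freeData m).nrm R (W g) / (ballData n r q).w ρ₂ g with hC₀
  have hnn : ∀ g, 0 ≤ (freeData m).nrm R (W g) / (ballData n r q).w ρ₂ g := by
    intro g
    exact div_nonneg (apply_nonneg _ _) ((ballData n r q).w_pos _ _).le
  have hC₀1 : 1 ≤ C₀ := by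
    have : 0 ≤ ∑ g ∈ F, (freeData m).nrm R (W g) / (ballData n r q).w ρ₂ g :=
      Finset.sum_nonneg fun g _ => hnn g
    linarith
  have hb : ∀ Λ : ℝ, 0 ≤ Λ → ∀ g, deg g < K →
      kf (ballData n r q) a R ρ Λ ((ballData n r q).mono g) ≤
        C₀ * (ballData n r q).w ρ₂ g := by
    intro Λ hΛ g hg
    have h1 := kf_le (R := R) (ρ := ρ) (a := a) hΛ ((ballData n r q).mono g) (W g)
    rw [hW, sub_self, map_zero, mul_zero, add_zero] at h1
    refine h1.trans ?_
    rw [← div_le_iff₀ ((ballData n r q).w_pos _ _)]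
    have h2 : g ∈ F := by
      rw [hF, Set.Finite.mem_toFinset]
      exact hg
    have h3 : (freeData m).nrm R (W g) / (ballData n r q).w ρ₂ g ≤
        ∑ g ∈ F, (freeData m).nrm R (W g) / (ballData n r q).w ρ₂ g :=
      Finset.single_le_sum (f := fun g => (freeData m).nrm R (W g) / (ballData n r q).w ρ₂ g)
        (fun g _ => hnn g) h2
    linarith
  refine ⟨2 * C₀, fun g => ?_⟩
  have hpos : 0 < C₀ * (ballData n r q).w ρ₂ g :=
    mul_pos (by linarith) ((ballData n r q).w_pos _ _)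
  rw [mul_assoc]
  apply ap_of_kf hpos
  intro Λ hΛ
  rcases kf_mono_le hΛ hR hD (fun g => ball_w_mono hρ g) (hb Λ hΛ) g with h | h
  · exact h
  · exact h.trans hpos.le

/-- one improvement -/
lemma improve {R : PR} {ρ ρ₁ ρ₂ : Rad r} {K L : ℕ} (hL : 1 ≤ L)
    (hD : Dom a deg R ρ₁ K L) (h21 : ρ₂.1 ≤ ρ₁.1) (hr : ρ₁.1 ^ L ≤ 2 * ρ₂.1 ^ L)
    (h : ∃ C : ℝ, ∀ g, Ap (ballData n r q) a R ρ ((ballData n r q).mono g)
      (C * (ballData n r q).w ρ₁ g)) :
    ∃ C : ℝ, ∀ g, Ap (ballData n r q) a R ρ ((ballData n r q).mono g)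
      (C * (ballData n r q).w ρ₂ g) := by
  obtain ⟨C, hC⟩ := h
  have hC0 : 0 ≤ C := by
    have h5 := (hC 0).nonneg
    rwa [(ballData n r q).w_zero, mul_one] at h5
  set x := ρ₁.1 / ρ₂.1 with hx
  have hx1 : 1 ≤ x := by
    rw [hx, one_le_div ρ₂.2.1]
    exact h21
  have hxL : x ^ L ≤ 2 := by
    rw [hx, div_pow, div_le_iff₀ (pow_pos ρ₂.2.1 _)]
    exact hr
  refine ⟨2 * C * x ^ K, fun g => ?_⟩
  have hw := (ballData n r q).w_pos ρ₂ g
  rcases lt_or_ge (deg g) K with hg | hg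
  · refine (hC g).mono_c ?_
    rw [ball_w_ratio ρ₁ ρ₂ g, ← hx]
    have h1 : x ^ deg g ≤ x ^ K := pow_le_pow_right₀ hx1 hg.le
    have h2 : 0 ≤ x ^ deg g := by positivity
    have h3 : C * (x ^ deg g * (ballData n r q).w ρ₂ g) ≤
        C * (x ^ K * (ballData n r q).w ρ₂ g) :=
      mul_le_mul_of_nonneg_left (mul_le_mul_of_nonneg_right h1 hw.le) hC0
    have h4 : 0 ≤ C * (x ^ K * (ballData n r q).w ρ₂ g) := h3.trans' (by positivity)
    nlinarith
  · set s := (deg g - K) / L with hs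
    have h1 : K + s * L ≤ deg g := by
      have := Nat.div_mul_le_self (deg g - K) L
      rw [← hs] at this
      omega
    have h2 : deg g ≤ K + (s + 1) * L := by
      have h3 : (deg g - K) < ((deg g - K) / L + 1) * L := by
        rw [mul_comm]
        exact Nat.lt_mul_div_succ _ (by omega)
      rw [← hs] at h3
      omega
    refine (improve_iter hD hC s g h1).mono_c ?_
    rw [ball_w_ratio ρ₁ ρ₂ g, ← hx]
    have h3 : x ^ deg g ≤ x ^ K * (x ^ L) ^ (s + 1) := by
      rw [← pow_mul, ← pow_add]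
      exact pow_le_pow_right₀ hx1 (by rw [mul_comm L]; exact h2)
    have h4 : (x ^ L) ^ (s + 1) ≤ 2 ^ (s + 1) := pow_le_pow_left₀ (by positivity) hxL _
    have h5 : x ^ deg g ≤ x ^ K * 2 ^ (s + 1) :=
      h3.trans (mul_le_mul_of_nonneg_left h4 (by positivity))
    calc (1 / 2) ^ s * C * (x ^ deg g * (ballData n r q).w ρ₂ g)
        ≤ (1 / 2) ^ s * C * ((x ^ K * 2 ^ (s + 1)) * (ballData n r q).w ρ₂ g) := by
          apply mul_le_mul_of_nonneg_left _ (by positivity)
          exact mul_le_mul_of_nonneg_right h5 hw.le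
      _ = ((1 / 2) ^ s * 2 ^ s) * (2 * C * x ^ K * (ballData n r q).w ρ₂ g) := by
          rw [pow_succ]; ring
      _ = _ := by
          rw [← mul_pow]
          norm_num

/-- descent along an interval of radii -/
lemma descend {R : PR} {ρ ρa ρb : Rad r} {K L : ℕ} (hL : 1 ≤ L) (hab : ρa.1 ≤ ρb.1)
    (hD : ∀ ρ' : Rad r, ρa.1 ≤ ρ'.1 → ρ'.1 ≤ ρb.1 → Dom a deg R ρ' K L)
    (h : ∃ C : ℝ, ∀ g, Ap (ballData n r q) a R ρ ((ballData n r q).mono g)
      (C * (ballData n r q).w ρb g)) :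
    ∃ C : ℝ, ∀ g, Ap (ballData n r q) a R ρ ((ballData n r q).mono g)
      (C * (ballData n r q).w ρa g) := by
  have hL' : (1 : ℝ) ≤ L := by exact_mod_cast hL
  set lam : ℝ := 1 - 1 / (2 * L) with hlam
  have h2L : (1 : ℝ) / (2 * L) ≤ 1 / 2 := by
    apply one_div_le_one_div_of_le (by norm_num)
    linarith
  have h2L' : (0 : ℝ) < 1 / (2 * L) := by positivity
  have hlam0 : 0 < lam := by rw [hlam]; linarith
  have hlam1 : lam < 1 := by rw [hlam]; linarith
  have hlamL : 1 / 2 ≤ lam ^ L := by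
    have h1 := one_add_mul_le_pow (show (-2 : ℝ) ≤ -(1 / (2 * L)) by linarith) L
    have h3 : 1 + (L : ℝ) * (-(1 / (2 * L))) = 1 / 2 := by
      field_simp
      ring
    rw [h3] at h1
    rw [hlam, sub_eq_add_neg]
    exact h1
  -- the intermediate radii
  have hrad : ∀ t : ℕ, 0 < max ρa.1 (ρb.1 * lam ^ t) ∧ max ρa.1 (ρb.1 * lam ^ t) ≤ ρb.1 := by
    intro t
    refine ⟨lt_max_of_lt_left ρa.2.1, max_le hab ?_⟩
    have h1 : lam ^ t ≤ 1 := pow_le_one₀ hlam0.le hlam1.le
    nlinarith [ρb.2.1]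
  set P : ℕ → Rad r := fun t => ⟨max ρa.1 (ρb.1 * lam ^ t), (hrad t).1,
    (hrad t).2.trans_lt ρb.2.2⟩ with hP
  have hstep : ∀ t, ∃ C : ℝ, ∀ g, Ap (ballData n r q) a R ρ ((ballData n r q).mono g)
      (C * (ballData n r q).w (P t) g) := by
    intro t
    induction t with
    | zero =>
      have : P 0 = ρb := by
        apply Subtype.ext
        simp [hP, hab]
      rw [this]
      exact h
    | succ t ih =>
      refine improve hL (hD (P t) (le_max_left _ _) (hrad t).2) ?_ ?_ ih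
      · simp only [hP]
        apply max_le_max le_rfl
        rw [pow_succ]
        have := pow_pos hlam0 t
        nlinarith [ρb.2.1, mul_pos ρb.2.1 this]
      · have h1 : lam * (P t).1 ≤ (P (t + 1)).1 := by
          simp only [hP]
          rcases le_total ρa.1 (ρb.1 * lam ^ t) with h3 | h3
          · rw [max_eq_right h3]
            apply le_max_of_le_right
            rw [pow_succ]
            linarith
          · rw [max_eq_left h3]
            apply le_max_of_le_left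
            nlinarith [ρa.2.1]
        have h2 := pow_le_pow_left₀ (mul_pos hlam0 (P t).2.1).le h1 L
        rw [mul_pow] at h2
        have h3 := pow_pos (P t).2.1 L
        nlinarith
  obtain ⟨t, ht⟩ := exists_pow_lt_of_lt_one (div_pos ρa.2.1 ρb.2.1) hlam1
  have hlast : P t = ρa := by
    apply Subtype.ext
    simp only [hP]
    apply max_eq_left
    rw [lt_div_iff₀ ρb.2.1] at ht
    linarith
  rw [← hlast]
  exact hstep t

/-- The hypotheses on the generators. -/
structure Good (a : Fin m → QuantumBall n r q) : Prop where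
  gen : ∀ g, ∃ ω : FreeEntire m, evalHom (ballData n r q) a ω = (ballData n r q).mono g
  dom : ∃ s : ℕ → Rad r, (∀ i, (s i).1 ≤ (s (i + 1)).1) ∧ (∀ ρ : Rad r, ∃ i, ρ.1 ≤ (s i).1) ∧
    ∀ R : PR, ∃ J₀, ∀ J ≥ J₀, ∃ K L, 1 ≤ L ∧
      ∀ ρ : Rad r, (s J).1 ≤ ρ.1 → ρ.1 ≤ (s (J + 1)).1 → Dom a deg R ρ K L

/-- Step (2'). -/
lemma step2 (hg : Good a) (R : PR) : ∃ ρR : Rad r, ∀ ρ : Rad r, ∃ C : ℝ, 0 < C ∧
    ∀ x, Ap (ballData n r q) a R ρ x (C * (ballData n r q).nrm ρR x) := by
  obtain ⟨s, hs1, hs2, hs3⟩ := hg.dom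
  have hsm : ∀ i j, i ≤ j → (s i).1 ≤ (s j).1 := by
    intro i j hij
    induction j, hij using Nat.le_induction with
    | base => exact le_rfl
    | succ j _ ih => exact ih.trans (hs1 j)
  obtain ⟨J₀, hJ₀⟩ := hs3 R
  refine ⟨s J₀, fun ρ => ?_⟩
  -- a bigger radius for the evaluation
  set R' : PR := ⟨max R.1 (bigR (ballData n r q) a ρ).1, lt_max_of_lt_left R.2⟩ with hR'
  obtain ⟨J₁, hJ₁⟩ := hs3 R'
  obtain ⟨i, hi⟩ := hs2 ρ
  set J := max (max J₀ J₁) i with hJ
  have hJ0 : J₀ ≤ J := (le_max_left _ _).trans (le_max_left _ _)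
  obtain ⟨K, L, hL, hKL⟩ := hJ₁ J ((le_max_right _ _).trans (le_max_left _ _))
  have hbase : ∃ C : ℝ, ∀ g, Ap (ballData n r q) a R ρ ((ballData n r q).mono g)
      (C * (ballData n r q).w (s J) g) := by
    obtain ⟨C, hC⟩ := step1 hg.gen R' ρ (s J) (hi.trans (hsm i J (le_max_right _ _)))
      (fun j => (le_bigR (ballData n r q) a ρ j).trans (le_max_right _ _))
      (hKL (s J) le_rfl (hs1 J))
    exact ⟨C, fun g => (hC g).mono_R (le_max_left _ _)⟩
  have hall : ∀ k, J₀ + k ≤ J → ∃ C : ℝ, ∀ g, Ap (ballData n r q) a R ρ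
      ((ballData n r q).mono g) (C * (ballData n r q).w (s (J - k)) g) := by
    intro k
    induction k with
    | zero => intro _; exact hbase
    | succ k ih =>
      intro hk
      obtain ⟨K', L', hL', hKL'⟩ := hJ₀ (J - (k + 1)) (by omega)
      have e : J - (k + 1) + 1 = J - k := by omega
      rw [e] at hKL'
      refine descend hL' ?_ (fun ρ' h1 h2 => hKL' ρ' h1 h2) (ih (by omega))
      have := hs1 (J - (k + 1))
      rwa [e] at this
  obtain ⟨C, hC⟩ := hall (J - J₀) (by omega)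
  have e : J - (J - J₀) = J₀ := by omega
  rw [e] at hC
  refine ⟨max C 1, lt_max_of_lt_right one_pos, fun x => ap_of_mono x fun g _ => ?_⟩
  refine (hC g).mono_c ?_
  exact mul_le_mul_of_nonneg_right (le_max_left _ _) ((ballData n r q).w_pos _ _).le

/-- Step (3'): surjectivity with bounds. -/
lemma step3 (hg : Good a) (R : PR) : ∃ (ρ : Rad r) (C : ℝ), ∀ x, ∃ ω : FreeEntire m,
    evalHom (ballData n r q) a ω = x ∧
      (freeData m).nrm R ω ≤ C * (ballData n r q).nrm ρ x := by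
  classical
  choose ρF CF hCF0 hCF using step2 hg
  set Rk : ℕ → PR := fun k => ⟨R.1 + k, by have := R.2; positivity⟩ with hRk
  set rr : ℕ → Rad r := fun k => ρF (Rk k) with hrr
  -- accuracy radii
  set ac : ℕ → Rad r := fun k => if (rr 0).1 ≤ (rr (k + 1)).1 then rr (k + 1) else rr 0 with hac
  have hac1 : ∀ k, (rr (k + 1)).1 ≤ (ac k).1 := by
    intro k
    simp only [hac]
    split_ifs with h
    · exact le_rfl
    · exact (not_le.1 h).le
  have hac0 : ∀ k, (rr 0).1 ≤ (ac k).1 := by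
    intro k
    simp only [hac]
    split_ifs with h
    · exact h
    · exact le_rfl
  set Ck : ℕ → ℝ := fun k => CF (Rk k) (ac k) with hCk
  have hCk0 : ∀ k, 0 < Ck k := fun k => hCF0 _ _
  refine ⟨rr 0, Ck 0 + 2, fun x => ?_⟩
  rcases eq_or_ne x 0 with hx | hx
  · refine ⟨0, by simp [hx], by simp [hx]⟩
  set ε : ℝ := (ballData n r q).nrm (rr 0) x with hε
  have hε0 : 0 < ε := by
    refine lt_of_le_of_ne (apply_nonneg _ _) (fun h => hx ?_)
    exact eq_zero_of_nrm _ x h.symm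
  set δ : ℕ → ℝ := fun k => ε * (1 / 2) ^ k / (Ck (k + 1) + 1) with hδ
  have hδ0 : ∀ k, 0 < δ k := by
    intro k
    have := hCk0 (k + 1)
    simp only [hδ]
    positivity
  -- choice of approximations
  have hch : ∀ k (y : QuantumBall n r q), ∃ ω : FreeEntire m,
      (freeData m).nrm (Rk k) ω ≤ Ck k * (ballData n r q).nrm (rr k) y ∧
      (ballData n r q).nrm (ac k) (y - evalHom (ballData n r q) a ω) ≤ δ k := by
    intro k y
    exact hCF (Rk k) (ac k) y (δ k) (hδ0 k)
  choose W hW1 hW2 using hch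
  set y : ℕ → QuantumBall n r q := fun k =>
    Nat.rec x (fun k y => y - evalHom (ballData n r q) a (W k y)) k with hy
  have hy0 : y 0 = x := rfl
  have hys : ∀ k, y (k + 1) = y k - evalHom (ballData n r q) a (W k (y k)) := fun k => rfl
  set u : ℕ → FreeEntire m := fun k => W k (y k) with hu
  have hysum : ∀ k, x - y k = evalHom (ballData n r q) a (∑ j ∈ range k, u j) := by
    intro k
    induction k with
    | zero => simp [hy0]
    | succ k ih =>
      rw [Finset.sum_range_succ, map_add, ← ih, hys]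
      abel
  have hδε : ∀ k, Ck (k + 1) * δ k ≤ ε * (1 / 2) ^ k := by
    intro k
    have h1 := hCk0 (k + 1)
    simp only [hδ]
    rw [← mul_div_assoc, div_le_iff₀ (by linarith)]
    have h2 : 0 < ε * (1 / 2) ^ k := by positivity
    nlinarith
  have hδ1 : ∀ k, (ballData n r q).nrm (rr 0) (y (k + 1)) ≤ δ k := by
    intro k
    rw [hys]
    exact (ball_nrm_mono (hac0 k) _).trans (hW2 k (y k))
  have hu0 : (freeData m).nrm (Rk 0) (u 0) ≤ Ck 0 * ε := by
    simpa [hu, hy0, hε] using hW1 0 (y 0)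
  have hus : ∀ k, (freeData m).nrm (Rk (k + 1)) (u (k + 1)) ≤ ε * (1 / 2) ^ k := by
    intro k
    refine (hW1 (k + 1) (y (k + 1))).trans (le_trans ?_ (hδε k))
    apply mul_le_mul_of_nonneg_left _ (hCk0 _).le
    rw [hys]
    exact (ball_nrm_mono (hac1 k) _).trans (hW2 k (y k))
  have hgeo : Summable fun k : ℕ => ε * (1 / 2 : ℝ) ^ k :=
    (summable_geometric_of_lt_one (by norm_num) (by norm_num)).mul_left ε
  have husum : ∀ R' : PR, Summable fun k => (freeData m).nrm R' (u k) := by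
    intro R'
    obtain ⟨k₀, hk₀⟩ := exists_nat_ge R'.1
    rw [← summable_nat_add_iff (k₀ + 1)]
    have hgeo' : Summable fun k : ℕ => ε * (1 / 2 : ℝ) ^ (k + k₀) :=
      (summable_nat_add_iff k₀).2 hgeo
    refine Summable.of_nonneg_of_le (fun _ => apply_nonneg _ _) ?_ hgeo'
    intro k
    refine le_trans ?_ (hus (k + k₀))
    apply free_nrm_mono
    simp only [hRk]
    push_cast
    have := R.2
    have h0 : (0 : ℝ) ≤ k := Nat.cast_nonneg k
    linarith
  set ω := tsumAlg u husum with hω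
  refine ⟨ω, ?_, ?_⟩
  · symm
    rw [← sub_eq_zero]
    apply eq_zero_of_nrm (rr 0)
    refine le_antisymm (le_of_forall_pos_le_add fun η hη => ?_) (apply_nonneg _ _)
    rw [zero_add]
    set R' := bigR (ballData n r q) a (rr 0) with hR'
    obtain ⟨s, hs⟩ := exists_finset_nrm_le u husum R' (half_pos hη)
    obtain ⟨k₀, hk₀⟩ := s.exists_nat_subset_range
    have hδlim : Filter.Tendsto (fun k : ℕ => ε * (1 / 2 : ℝ) ^ k) Filter.atTop (nhds 0) :=
      hgeo.tendsto_atTop_zero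
    obtain ⟨k₁, hk₁⟩ := (hδlim.eventually (gt_mem_nhds (half_pos hη))).exists_forall_of_atTop
    set k := max k₀ k₁ with hk
    have h1 := hs (range (k + 1)) (hk₀.trans (by
      intro j hj
      rw [mem_range] at hj ⊢
      have := le_max_left k₀ k₁
      omega))
    have h2 : x - evalHom (ballData n r q) a ω =
        y (k + 1) - evalHom (ballData n r q) a (ω - ∑ j ∈ range (k + 1), u j) := by
      rw [map_sub, ← hysum]
      abel
    rw [h2]
    refine (map_sub_le_add _ _ _).trans ?_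
    have h3 := (nrm_evalHom_le (ballData n r q) a (rr 0) R' (le_bigR _ _ _)
      (ω - ∑ j ∈ range (k + 1), u j)).trans h1
    have h4 := hδ1 k
    have h5 := hk₁ k (le_max_right _ _)
    have h6 : δ k ≤ ε * (1 / 2) ^ k := by
      have h7 := hCk0 (k + 1)
      simp only [hδ]
      apply div_le_self (by positivity)
      linarith
    linarith
  · refine (nrm_tsumAlg_le u husum R).trans ?_
    have h1 : ∀ k, (freeData m).nrm R (u k) ≤ (freeData m).nrm (Rk k) (u k) := by
      intro k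
      apply free_nrm_mono
      simp [hRk]
    rw [(husum R).tsum_eq_zero_add]
    have h2 : ∑' k, (freeData m).nrm R (u (k + 1)) ≤ ∑' k : ℕ, ε * (1 / 2 : ℝ) ^ k := by
      refine ((summable_nat_add_iff 1).2 (husum R)).tsum_le_tsum ?_ hgeo
      intro k
      exact (h1 (k + 1)).trans (hus k)
    rw [tsum_mul_left, tsum_geometric_two] at h2
    have h3 := (h1 0).trans hu0
    linarith

end

end Pool.Agent.LibHFG
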