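import Pool.Agent.LibHFG.Global

open Finset

namespace Pool.Agent.LibHFG

open TwistData

variable {n : ℕ} {r : ℝ} {q : Circle}

/-- the generator `x_i` -/
noncomputable def X (r : ℝ) (q : Circle) (i : Fin n) : QuantumBall n r q :=
  (ballData n r q).mono (Pi.single i 1)

/-- The commutation relations `x_i x_j = q x_j x_i` for `i < j`. -/
lemma X_mul_X (i j : Fin n) (hij : i < j) : X r q i * X r q j = (q : ℂ) • (X r q j * X r q i) := by
  have h1 : twistExp (Pi.single i 1 : Fin n → ℕ) (Pi.single j 1) = 0 := by
    unfold twistExp
    apply Finset.sum_eq_zero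
    intro b _
    apply Finset.sum_eq_zero
    intro a ha
    rw [Finset.mem_Iio] at ha
    by_cases hb : b = i
    · have : a ≠ j := by
        rintro rfl
        rw [hb] at ha
        exact absurd ha (not_lt.2 hij.le)
      rw [Pi.single_eq_of_ne this, zero_mul]
    · rw [Pi.single_eq_of_ne hb, mul_zero]
  have h2 : twistExp (Pi.single j 1 : Fin n → ℕ) (Pi.single i 1) = 1 := by
    unfold twistExp
    rw [Finset.sum_eq_single j, Finset.sum_eq_single i]
    · simp
    · intro a _ ha
      rw [Pi.single_eq_of_ne ha, zero_mul]
    · intro h
      exact absurd (Finset.mem_Iio.2 hij) h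
    · intro b _ hb
      apply Finset.sum_eq_zero
      intro a _
      rw [Pi.single_eq_of_ne hb, mul_zero]
    · intro h
      exact absurd (Finset.mem_univ j) h
  unfold X
  rw [mono_mul_mono, mono_mul_mono]
  show (((q : ℂ)⁻¹) ^ twistExp _ _) • _ = (q : ℂ) • ((((q : ℂ)⁻¹) ^ twistExp _ _) • _)
  rw [h1, h2, pow_zero, one_smul, pow_one, smul_smul, mul_inv_cancel₀ (Circle.coe_ne_zero q),
    one_smul, add_comm]

lemma mono_add_of_twistExp {k l : Fin n → ℕ} (h : twistExp k l = 0) :
    (ballData n r q).mono k * (ballData n r q).mono l = (ballData n r q).mono (k + l) := by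
  rw [mono_mul_mono]
  show (((q : ℂ)⁻¹) ^ twistExp _ _) • _ = _
  rw [h, pow_zero, one_smul]

lemma X_pow (i : Fin n) (a : ℕ) :
    X r q i ^ a = (ballData n r q).mono (Pi.single i a) := by
  induction a with
  | zero => rw [pow_zero, Pi.single_zero]; rfl
  | succ a ih =>
    rw [pow_succ, ih, X, mono_add_of_twistExp, ← Pi.single_add]
    unfold twistExp
    apply Finset.sum_eq_zero
    intro b _
    apply Finset.sum_eq_zero
    intro c hc
    rw [Finset.mem_Iio] at hc
    by_cases hb : b = i
    · have : c ≠ i := by
        rintro rfl
        rw [hb] at hc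
        exact absurd hc (lt_irrefl _)
      rw [Pi.single_eq_of_ne this, zero_mul]
    · rw [Pi.single_eq_of_ne hb, mul_zero]

/-- The basis element with exponent `k` is the ordered monomial `x_1 ^ k_1 ⋯ x_n ^ k_n`. -/
lemma mono_eq_prod (k : Fin n → ℕ) :
    (ballData n r q).mono k = (List.ofFn fun i => X r q i ^ k i).prod := by
  have h : ∀ t ≤ n, ((List.ofFn fun i => X r q i ^ k i).take t).prod =
      (ballData n r q).mono (fun i => if i.1 < t then k i else 0) := by
    intro t
    induction t with
    | zero =>
      intro _
      simp only [List.take_zero, List.prod_nil, not_lt_zero, if_false]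
      rfl
    | succ t ih =>
      intro ht
      have hlen : t < (List.ofFn fun i => X r q i ^ k i).length := by
        rw [List.length_ofFn]; omega
      rw [List.prod_take_succ _ t hlen, ih (by omega), List.getElem_ofFn, X_pow,
        mono_add_of_twistExp]
      · congr 1
        funext i
        simp only [Pi.add_apply]
        rcases lt_trichotomy i.1 t with h | h | h
        · rw [if_pos h, if_pos (by omega), Pi.single_eq_of_ne, add_zero]
          intro h'
          rw [h'] at h
          exact absurd h (lt_irrefl _)
        · have : i = ⟨t, by omega⟩ := Fin.ext h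
          rw [this, Pi.single_eq_same]
          simp
        · rw [if_neg (by omega), if_neg (by omega), Pi.single_eq_of_ne, add_zero]
          intro h'
          rw [h'] at h
          exact absurd h (lt_irrefl _)
      · unfold twistExp
        apply Finset.sum_eq_zero
        intro b _
        apply Finset.sum_eq_zero
        intro c hc
        rw [Finset.mem_Iio, Fin.lt_def] at hc
        by_cases hb : b.1 < t
        · rw [Pi.single_eq_of_ne, zero_mul]
          intro h'
          rw [h'] at hc
          simp only at hc
          omega
        · show _ * (if b.1 < t then k b else 0) = 0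
          rw [if_neg hb, mul_zero]
  have h2 := h n le_rfl
  rw [List.take_of_length_le (by rw [List.length_ofFn])] at h2
  rw [h2]
  congr 1
  funext i
  rw [if_pos i.2]

end Pool.Agent.LibHFG
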