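import Pool.Agent.LibHFG.Comb

open Finset

namespace Pool.Agent.LibHFG

set_option linter.unusedSectionVars false

section

variable {n : ℕ}

lemma facQuot_zero : facQuot (0 : Fin n → ℕ) = 1 := by
  simp [facQuot, deg]

lemma facQuot_nsmul (k : Fin n → ℕ) (L : ℕ) : facQuot (L • k) ≤ facQuot k ^ L := by
  induction L with
  | zero => simp [facQuot_zero]
  | succ L ih =>
    rw [succ_nsmul, pow_succ]
    exact (facQuot_add _ _).trans (mul_le_mul_of_nonneg_right ih (facQuot_pos k).le)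

lemma deg_nsmul (k : Fin n → ℕ) (L : ℕ) : deg (L • k) = L * deg k := by
  simp [deg, Finset.mul_sum]

lemma deg_sub {m l : Fin n → ℕ} (h : l ≤ m) : deg (m - l) + deg l = deg m := by
  rw [← deg_add, tsub_add_cancel_of_le h]

lemma deg_mono {m l : Fin n → ℕ} (h : l ≤ m) : deg l ≤ deg m :=
  Finset.sum_le_sum fun i _ => h i

lemma facQuot_sub {m l : Fin n → ℕ} (h : l ≤ m) :
    facQuot (m - l) * ∏ i, ((m i).descFactorial (l i) : ℝ) =
      facQuot m * ((deg m).descFactorial (deg l) : ℝ) := by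
  have h1 : (∏ i, (((m - l) i).factorial : ℝ)) * ∏ i, ((m i).descFactorial (l i) : ℝ) =
      ∏ i, ((m i).factorial : ℝ) := by
    rw [← Finset.prod_mul_distrib]
    apply Finset.prod_congr rfl
    intro i _
    rw [Pi.sub_apply]
    exact_mod_cast Nat.factorial_mul_descFactorial (h i)
  have h2 : ((deg (m - l)).factorial : ℝ) * ((deg m).descFactorial (deg l) : ℝ) =
      ((deg m).factorial : ℝ) := by
    have h3 : deg (m - l) = deg m - deg l := by
      have := deg_sub h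
      omega
    rw [h3]
    exact_mod_cast Nat.factorial_mul_descFactorial (deg_mono h)
  unfold facQuot
  rw [← h1, ← h2]
  have h4 : ((deg (m - l)).factorial : ℝ) ≠ 0 := by positivity
  have h5 : ((deg m).descFactorial (deg l) : ℝ) ≠ 0 := by
    intro h6
    rw [h6, mul_zero] at h2
    have : ((deg m).factorial : ℝ) ≠ 0 := by positivity
    exact this h2.symm
  field_simp

lemma facQuot_sub_add {m l l' : Fin n → ℕ} (h : l ≤ m) (hd : deg l' = deg l) :
    facQuot (m - l + l') * ∏ i, ((m i).descFactorial (l i) : ℝ) =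
      facQuot m * ∏ i, ((m i - l i + 1).ascFactorial (l' i) : ℝ) := by
  have h1 : (∏ i, (((m - l) i).factorial : ℝ)) * ∏ i, ((m i).descFactorial (l i) : ℝ) =
      ∏ i, ((m i).factorial : ℝ) := by
    rw [← Finset.prod_mul_distrib]
    apply Finset.prod_congr rfl
    intro i _
    rw [Pi.sub_apply]
    exact_mod_cast Nat.factorial_mul_descFactorial (h i)
  have h2 : (∏ i, (((m - l) i).factorial : ℝ)) * ∏ i, ((m i - l i + 1).ascFactorial (l' i) : ℝ) =
      ∏ i, (((m - l + l') i).factorial : ℝ) := by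
    rw [← Finset.prod_mul_distrib]
    apply Finset.prod_congr rfl
    intro i _
    rw [Pi.add_apply, Pi.sub_apply]
    exact_mod_cast Nat.factorial_mul_ascFactorial (m i - l i) (l' i)
  have h3 : deg (m - l + l') = deg m := by
    rw [deg_add, hd, deg_sub h]
  unfold facQuot
  rw [← h1, ← h2, h3]
  ring

lemma desc_lower {m k : Fin n → ℕ} {Q L N : ℕ} (hk : deg k = Q) (hN : N = L * Q) (hN1 : 1 ≤ N)
    (hm : ∀ i, 0 < k i → 4 * (N : ℝ) ^ 2 ≤ (m i : ℝ) + N) :
    1 / 2 * (∏ i, ((m i : ℝ) + N) ^ k i) ^ L ≤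
      ∏ i, ((m i).descFactorial ((L • k) i) : ℝ) := by
  have hN' : (1 : ℝ) ≤ N := by exact_mod_cast hN1
  set c : ℝ := 1 - 1 / (2 * N) with hc
  have hc1 : (1 : ℝ) / (2 * N) ≤ 1 / 2 := by
    apply one_div_le_one_div_of_le (by norm_num)
    linarith
  have hc0 : 0 < c := by rw [hc]; linarith
  have hcN : 1 / 2 ≤ c ^ N := by
    have h1 := one_add_mul_le_pow (show (-2 : ℝ) ≤ -(1 / (2 * N)) by linarith) N
    have h3 : 1 + (N : ℝ) * (-(1 / (2 * N))) = 1 / 2 := by
      field_simp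
      ring
    rw [h3] at h1
    rw [hc, sub_eq_add_neg]
    exact h1
  have h1 : ∀ i, (c * ((m i : ℝ) + N)) ^ (L • k) i ≤
      ((m i).descFactorial ((L • k) i) : ℝ) := by
    intro i
    rcases Nat.eq_zero_or_pos (k i) with hki | hki
    · simp [hki]
    · have h2 := hm i hki
      have h3 : ((m i + 1 - (L • k) i : ℕ) : ℝ) ^ ((L • k) i) ≤
          ((m i).descFactorial ((L • k) i) : ℝ) := by
        exact_mod_cast Nat.pow_sub_le_descFactorial (m i) ((L • k) i)
      refine le_trans (pow_le_pow_left₀ (by positivity) ?_ _) h3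
      have h4 : (L • k) i ≤ N := by
        have := le_deg (L • k) i
        rw [deg_nsmul, hk, ← hN] at this
        exact this
      have h5 : (m i : ℝ) - N ≤ ((m i + 1 - (L • k) i : ℕ) : ℝ) := by
        have h6 : m i ≤ (m i + 1 - (L • k) i) + N := by omega
        have h7 : (m i : ℝ) ≤ ((m i + 1 - (L • k) i : ℕ) : ℝ) + N := by exact_mod_cast h6
        linarith
      refine le_trans ?_ h5
      have h8 : 2 * (N : ℝ) ≤ 1 / (2 * N) * ((m i : ℝ) + N) := by
        rw [div_mul_eq_mul_div, one_mul, le_div_iff₀ (by positivity)]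
        nlinarith
      have h9 : c * ((m i : ℝ) + N) = ((m i : ℝ) + N) - 1 / (2 * N) * ((m i : ℝ) + N) := by
        rw [hc]; ring
      rw [h9]
      linarith
  calc 1 / 2 * (∏ i, ((m i : ℝ) + N) ^ k i) ^ L
      ≤ c ^ N * (∏ i, ((m i : ℝ) + N) ^ k i) ^ L :=
        mul_le_mul_of_nonneg_right hcN (by positivity)
    _ = ∏ i, (c * ((m i : ℝ) + N)) ^ (L • k) i := by
        rw [← Finset.prod_pow]
        have h2 : c ^ N = ∏ i, c ^ (L • k) i := by
          rw [Finset.prod_pow_eq_pow_sum]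
          congr 1
          have := deg_nsmul k L
          rw [hk, ← hN] at this
          exact this.symm
        rw [h2, ← Finset.prod_mul_distrib]
        apply Finset.prod_congr rfl
        intro i _
        rw [mul_pow, ← pow_mul]
        congr 2
        simp [mul_comm]
    _ ≤ _ := Finset.prod_le_prod (fun i _ => by positivity) (fun i _ => h1 i)

lemma asc_upper {m l k' : Fin n → ℕ} {L N Q : ℕ} (hk : deg k' = Q) (hN : N = L * Q) :
    ∏ i, ((m i - l i + 1).ascFactorial ((L • k') i) : ℝ) ≤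
      (∏ i, ((m i : ℝ) + N) ^ k' i) ^ L := by
  rw [← Finset.prod_pow]
  apply Finset.prod_le_prod
  · intro i _
    positivity
  · intro i _
    have h1 : ((m i - l i + 1).ascFactorial ((L • k') i) : ℝ) ≤
        ((m i - l i + (L • k') i : ℕ) : ℝ) ^ ((L • k') i) := by
      exact_mod_cast Nat.ascFactorial_le_pow_add (m i - l i) ((L • k') i)
    refine h1.trans ?_
    have h4 : (L • k') i ≤ N := by
      have := le_deg (L • k') i
      rw [deg_nsmul, hk, ← hN] at this
      exact this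
    have h5 : ((m i - l i + (L • k') i : ℕ) : ℝ) ≤ (m i : ℝ) + N := by
      have : m i - l i + (L • k') i ≤ m i + N := by omega
      exact_mod_cast this
    rw [← pow_mul]
    have e : k' i * L = (L • k') i := by simp [mul_comm]
    rw [e]
    exact pow_le_pow_left₀ (Nat.cast_nonneg _) h5 _

/-- the size of a monomial -/
noncomputable def vw (ρ : ℝ) (k : Fin n → ℕ) : ℝ := √(facQuot k) * ρ ^ deg k

lemma vw_pos {ρ : ℝ} (hρ : 0 < ρ) (k : Fin n → ℕ) : 0 < vw ρ k :=
  mul_pos (Real.sqrt_pos.2 (facQuot_pos k)) (pow_pos hρ _)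

lemma vw_sq {ρ : ℝ} (k : Fin n → ℕ) : vw ρ k ^ 2 = facQuot k * (ρ ^ deg k) ^ 2 := by
  rw [vw, mul_pow, Real.sq_sqrt (facQuot_pos k).le]

lemma stage_core (hn : 0 < n) {Q L N : ℕ} (hQ : 1 ≤ Q) (hL : 1 ≤ L) (hN : N = L * Q)
    (m : Fin n → ℕ) (hm : 4 * N ^ 2 * n * (Q + 1) ≤ deg m) :
    ∃ k ∈ GQ n Q, L • k ≤ m ∧
      facQuot (m - L • k) ≤ 2 * facQuot m * (((GQ n Q).card : ℝ) / facQuot k) ^ L ∧
      ∀ k' ∈ GQ n Q, k' ≠ k → (∀ i, k' i % 2 = k i % 2) →
        facQuot (m - L • k + L • k') * facQuot k ^ L ≤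
          2 * ((Q : ℝ) / (Q + 1)) ^ L * facQuot m * facQuot k' ^ L := by
  have hN1 : 1 ≤ N := by
    rw [hN]
    exact Nat.one_le_iff_ne_zero.2 (by positivity)
  have hN' : (1 : ℝ) ≤ N := by exact_mod_cast hN1
  have hn' : (0 : ℝ) < n := by exact_mod_cast hn
  set A : Fin n → ℝ := fun i => (m i : ℝ) + N with hA
  have hApos : ∀ i, 0 < A i := by
    intro i
    simp only [hA]
    positivity
  set B : ℝ := ∑ i, A i with hB
  have hBdeg : (deg m : ℝ) ≤ B := by
    have h1 : (deg m : ℝ) = ∑ i, (m i : ℝ) := by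
      simp [deg]
    rw [h1, hB]
    apply Finset.sum_le_sum
    intro i _
    simp only [hA]
    linarith
  have hB0 : 0 < B := by
    have : Nonempty (Fin n) := ⟨⟨0, hn⟩⟩
    exact Finset.sum_pos (fun i _ => hApos i) Finset.univ_nonempty
  obtain ⟨k, hk, hmax⟩ := Finset.exists_max_image (GQ n Q) (PA A) (GQ_nonempty hn Q)
  have hkd := mem_GQ.1 hk
  have hsupp : ∀ i, 0 < k i → 4 * (N : ℝ) ^ 2 ≤ (m i : ℝ) + N := by
    intro i hi
    have h1 := max_support hn hApos hk hmax i hi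
    have h2 : (4 * (N : ℝ) ^ 2 * n * (Q + 1)) ≤ deg m := by exact_mod_cast hm
    have h3 : (n * ((Q : ℝ) + 1)) * (4 * (N : ℝ) ^ 2) ≤ (n * ((Q : ℝ) + 1)) * A i := by
      calc (n * ((Q : ℝ) + 1)) * (4 * (N : ℝ) ^ 2) = 4 * (N : ℝ) ^ 2 * n * (Q + 1) := by ring
        _ ≤ (deg m : ℝ) := h2
        _ ≤ B := hBdeg
        _ ≤ _ := h1
    exact le_of_mul_le_mul_left h3 (by positivity)
  have hle : L • k ≤ m := by
    intro i
    rcases Nat.eq_zero_or_pos (k i) with hki | hki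
    · simp [hki]
    · have h1 := hsupp i hki
      have h2 : (L • k) i ≤ N := by
        have := le_deg (L • k) i
        rw [deg_nsmul, hkd, ← hN] at this
        exact this
      have h3 : (N : ℝ) ≤ m i := by nlinarith
      have h4 : N ≤ m i := by exact_mod_cast h3
      exact h2.trans h4
  have hdesc := desc_lower (m := m) hkd hN hN1 hsupp
  set DP := ∏ i, ((m i).descFactorial ((L • k) i) : ℝ) with hDP
  set AK := ∏ i, ((m i : ℝ) + N) ^ k i with hAK
  have hAK0 : 0 < AK := Finset.prod_pos fun i _ => pow_pos (hApos i) _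
  have hPk : PA A k = AK / facQuot k := rfl
  have hfk := facQuot_pos k
  refine ⟨k, hk, hle, ?_, ?_⟩
  · have h1 := facQuot_sub hle
    rw [← hDP] at h1
    have h2 : ((deg m).descFactorial (deg (L • k)) : ℝ) ≤ (B ^ Q) ^ L := by
      have h3 : ((deg m).descFactorial (deg (L • k)) : ℝ) ≤ (deg m : ℝ) ^ (deg (L • k)) := by
        exact_mod_cast Nat.descFactorial_le_pow _ _
      refine h3.trans ?_
      rw [deg_nsmul, hkd, mul_comm L Q, pow_mul]
      exact pow_le_pow_left₀ (by positivity)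
        (pow_le_pow_left₀ (Nat.cast_nonneg _) hBdeg _) _
    have h4 : B ^ Q ≤ (GQ n Q).card * (AK / facQuot k) := by
      rw [← hPk, hB, ← sum_PA A Q]
      have := Finset.sum_le_card_nsmul (GQ n Q) (PA A) (PA A k) hmax
      rwa [nsmul_eq_mul] at this
    have h5 : (B ^ Q) ^ L ≤ (((GQ n Q).card : ℝ) / facQuot k) ^ L * AK ^ L := by
      rw [← mul_pow]
      apply pow_le_pow_left₀ (by positivity)
      refine h4.trans (le_of_eq ?_)
      ring
    have h6 : facQuot (m - L • k) * (1 / 2 * AK ^ L) ≤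
        facQuot m * ((((GQ n Q).card : ℝ) / facQuot k) ^ L * AK ^ L) := by
      calc facQuot (m - L • k) * (1 / 2 * AK ^ L) ≤ facQuot (m - L • k) * DP :=
            mul_le_mul_of_nonneg_left hdesc (facQuot_pos _).le
        _ = _ := h1
        _ ≤ facQuot m * (B ^ Q) ^ L := mul_le_mul_of_nonneg_left h2 (facQuot_pos _).le
        _ ≤ _ := mul_le_mul_of_nonneg_left h5 (facQuot_pos _).le
    have h7 : (1 / 2 * AK ^ L) * facQuot (m - L • k) ≤
        (1 / 2 * AK ^ L) * (2 * facQuot m * (((GQ n Q).card : ℝ) / facQuot k) ^ L) := by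
      refine le_trans (le_of_eq (mul_comm _ _)) (h6.trans (le_of_eq ?_))
      ring
    exact le_of_mul_le_mul_left h7 (by positivity)
  · intro k' hk' hne hmod
    have hk'd := mem_GQ.1 hk'
    have h1 := facQuot_sub_add hle (show deg (L • k') = deg (L • k) by
      rw [deg_nsmul, deg_nsmul, hkd, hk'd])
    rw [← hDP] at h1
    have h2 := asc_upper (m := m) (l := L • k) hk'd hN
    have h3 := max_class hApos hk hmax hk' hne hmod
    set AK' := ∏ i, ((m i : ℝ) + N) ^ k' i with hAK'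
    have hAK'0 : 0 < AK' := Finset.prod_pos fun i _ => pow_pos (hApos i) _
    have hPk' : PA A k' = AK' / facQuot k' := rfl
    have hfk' := facQuot_pos k'
    rw [hPk, hPk', div_le_iff₀ hfk'] at h3
    set c : ℝ := (Q : ℝ) / (Q + 1) with hc
    have hc0 : 0 ≤ c := by positivity
    have h4 : AK' ^ L * facQuot k ^ L ≤ c ^ L * AK ^ L * facQuot k' ^ L := by
      rw [← mul_pow, ← mul_pow, ← mul_pow]
      apply pow_le_pow_left₀ (by positivity)
      have h5 := mul_le_mul_of_nonneg_right h3 hfk.le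
      refine h5.trans (le_of_eq ?_)
      field_simp
    have h6 : facQuot (m - L • k + L • k') * (1 / 2 * AK ^ L) ≤ facQuot m * AK' ^ L := by
      calc facQuot (m - L • k + L • k') * (1 / 2 * AK ^ L)
          ≤ facQuot (m - L • k + L • k') * DP :=
            mul_le_mul_of_nonneg_left hdesc (facQuot_pos _).le
        _ = _ := h1
        _ ≤ _ := mul_le_mul_of_nonneg_left h2 (facQuot_pos _).le
    have h7 : (1 / 2 * AK ^ L) * (facQuot (m - L • k + L • k') * facQuot k ^ L) ≤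
        (1 / 2 * AK ^ L) * (2 * c ^ L * facQuot m * facQuot k' ^ L) := by
      calc (1 / 2 * AK ^ L) * (facQuot (m - L • k + L • k') * facQuot k ^ L)
          = (facQuot (m - L • k + L • k') * (1 / 2 * AK ^ L)) * facQuot k ^ L := by ring
        _ ≤ (facQuot m * AK' ^ L) * facQuot k ^ L :=
            mul_le_mul_of_nonneg_right h6 (by positivity)
        _ = facQuot m * (AK' ^ L * facQuot k ^ L) := by ring
        _ ≤ facQuot m * (c ^ L * AK ^ L * facQuot k' ^ L) :=
            mul_le_mul_of_nonneg_left h4 (facQuot_pos _).le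
        _ = _ := by ring
    exact le_of_mul_le_mul_left h7 (by positivity)

/-- the coefficient attached to the exponent `L • k` -/
noncomputable def bet (ρ₀ : ℝ) (Q L : ℕ) (k : Fin n → ℕ) : ℝ := ((√(facQuot k) * ρ₀ ^ Q) ^ L)⁻¹

lemma bet_pos {ρ₀ : ℝ} (h : 0 < ρ₀) (Q L : ℕ) (k : Fin n → ℕ) : 0 < bet ρ₀ Q L k := by
  have := Real.sqrt_pos.2 (facQuot_pos k)
  unfold bet
  positivity

lemma bet_sq {ρ₀ : ℝ} (Q L : ℕ) (k : Fin n → ℕ) :
    bet ρ₀ Q L k ^ 2 = (facQuot k ^ L * (ρ₀ ^ (L * Q)) ^ 2)⁻¹ := by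
  unfold bet
  rw [inv_pow]
  congr 1
  rw [← pow_mul, mul_comm L 2, pow_mul, mul_pow, Real.sq_sqrt (facQuot_pos k).le, mul_pow]
  congr 1
  rw [← pow_mul, ← pow_mul, ← pow_mul]
  congr 1
  ring

/-- choice of `Q` -/
lemma exists_Q (n : ℕ) {x : ℝ} (hx : 1 < x) : ∃ Q : ℕ, 1 ≤ Q ∧
    4 * ((GQ n Q).card : ℝ) ≤ x ^ Q := by
  have h1 := tendsto_pow_const_div_const_pow_of_one_lt n hx
  have h2 := (h1.comp (Filter.tendsto_add_atTop_nat 1))
  have h3 : ∀ᶠ Q : ℕ in Filter.atTop, ((Q + 1 : ℕ) : ℝ) ^ n / x ^ (Q + 1) < 1 / (4 * x) :=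
    h2.eventually (gt_mem_nhds (by positivity))
  obtain ⟨Q, hQ, hQ1⟩ := (h3.and (Filter.eventually_ge_atTop 1)).exists
  refine ⟨Q, hQ1, ?_⟩
  have hx0 : 0 < x := by linarith
  rw [div_lt_div_iff₀ (by positivity) (by positivity), one_mul, pow_succ] at hQ
  have h4 : ((GQ n Q).card : ℝ) ≤ ((Q + 1 : ℕ) : ℝ) ^ n := by exact_mod_cast card_GQ_le n Q
  have h5 : (4 * ((Q + 1 : ℕ) : ℝ) ^ n) * x ≤ x ^ Q * x := by linarith
  have h6 := le_of_mul_le_mul_right h5 hx0
  linarith

/-- choice of `L` -/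
lemma exists_L {Q : ℕ} {g T ε x : ℝ} (hQ : 1 ≤ Q) (hx0 : 0 ≤ x) (hx1 : x < 1) (hε : 0 < ε)
    (hg : 0 < g) : ∃ L : ℕ, 1 ≤ L ∧ 2 * T ^ 2 ≤ 4 ^ L ∧
      2 * ((Q : ℝ) / (Q + 1)) ^ L ≤ 1 / (64 * g ^ 2) ∧ g * (x ^ Q) ^ L ≤ ε := by
  have hxQ : x ^ Q < 1 := pow_lt_one₀ hx0 hx1 (by omega)
  have hc : (Q : ℝ) / (Q + 1) < 1 := by
    rw [div_lt_one (by positivity)]
    linarith
  have h1 : ∀ᶠ L : ℕ in Filter.atTop, 2 * T ^ 2 ≤ (4 : ℝ) ^ L :=
    (tendsto_pow_atTop_atTop_of_one_lt (by norm_num : (1 : ℝ) < 4)).eventually_ge_atTop _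
  have h2 : ∀ᶠ L : ℕ in Filter.atTop, ((Q : ℝ) / (Q + 1)) ^ L < 1 / (128 * g ^ 2) :=
    (tendsto_pow_atTop_nhds_zero_of_lt_one (by positivity) hc).eventually
      (gt_mem_nhds (by positivity))
  have h3 : ∀ᶠ L : ℕ in Filter.atTop, (x ^ Q) ^ L < ε / g :=
    (tendsto_pow_atTop_nhds_zero_of_lt_one (by positivity) hxQ).eventually
      (gt_mem_nhds (by positivity))
  obtain ⟨L, ⟨⟨hL1, hL2⟩, hL3⟩, hL4⟩ :=
    (((h1.and h2).and h3).and (Filter.eventually_ge_atTop 1)).exists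
  refine ⟨L, hL4, hL1, ?_, ?_⟩
  · have : (1 : ℝ) / (64 * g ^ 2) = 2 * (1 / (128 * g ^ 2)) := by
      field_simp
      norm_num
    rw [this]
    linarith
  · rw [lt_div_iff₀ hg] at hL3
    linarith

/-- The stage lemma. -/
theorem stage (hn : 0 < n) {ρm ρ₀ ρp T ε : ℝ} (h0 : 0 < ρm) (h1 : ρm < ρ₀) (h2 : ρ₀ < ρp)
    (hT : 0 ≤ T) (hε : 0 < ε) :
    ∃ Q L K : ℕ, 1 ≤ L ∧ ∃ β : (Fin n → ℕ) → ℝ, (∀ k, 0 < β k) ∧
      ∑ k ∈ GQ n Q, β k * vw ρm (L • k) ≤ ε ∧
      ∀ m, K ≤ deg m → ∃ k ∈ GQ n Q, L • k ≤ m ∧ ∀ ρ, ρp ≤ ρ →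
        T * vw ρ (m - L • k) ≤ β k * vw ρ m ∧
        ∑ k' ∈ (GQ n Q).filter (fun k' => k' ≠ k ∧ ∀ i, k' i % 2 = k i % 2),
          β k' * vw ρ (m - L • k + L • k') ≤ 1 / 8 * (β k * vw ρ m) := by
  have hρ0 : 0 < ρ₀ := h0.trans h1
  have hρp : 0 < ρp := hρ0.trans h2
  have hx : 1 < (ρp / ρ₀) ^ 2 := by
    apply one_lt_pow₀ _ (by norm_num)
    rw [one_lt_div hρ0]
    exact h2
  obtain ⟨Q, hQ1, hQ⟩ := exists_Q n hx
  set g : ℝ := ((GQ n Q).card : ℝ) with hg
  have hg1 : 1 ≤ g := by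
    have := (GQ_nonempty hn Q).card_pos
    rw [hg]
    exact_mod_cast this
  have hg0 : 0 < g := by linarith
  obtain ⟨L, hL1, hL2, hL3, hL4⟩ := exists_L (g := g) (T := T) (ε := ε) (x := ρm / ρ₀) hQ1
    (by positivity) (by rw [div_lt_one hρ0]; exact h1) hε hg0
  set N := L * Q with hN
  refine ⟨Q, L, 4 * N ^ 2 * n * (Q + 1), hL1, bet ρ₀ Q L, fun k => bet_pos hρ0 Q L k, ?_, ?_⟩
  · have hb : ∀ k ∈ GQ n Q, bet ρ₀ Q L k * vw ρm (L • k) ≤ ((ρm / ρ₀) ^ Q) ^ L := by
      intro k hk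
      have hkd := mem_GQ.1 hk
      have hs := Real.sqrt_pos.2 (facQuot_pos k)
      have h3 : √(facQuot (L • k)) ≤ √(facQuot k) ^ L := by
        rw [Real.sqrt_le_iff]
        refine ⟨by positivity, ?_⟩
        rw [← pow_mul, mul_comm L 2, pow_mul, Real.sq_sqrt (facQuot_pos k).le]
        exact facQuot_nsmul k L
      unfold bet vw
      rw [deg_nsmul, hkd, inv_mul_le_iff₀ (by positivity)]
      have h4 : (√(facQuot k) * ρ₀ ^ Q) ^ L * ((ρm / ρ₀) ^ Q) ^ L =
          √(facQuot k) ^ L * ρm ^ (L * Q) := by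
        rw [← mul_pow, div_pow, mul_assoc, mul_div_cancel₀ _ (by positivity), mul_pow,
          ← pow_mul, mul_comm Q L]
      rw [h4]
      exact mul_le_mul_of_nonneg_right h3 (by positivity)
    have h5 := Finset.sum_le_card_nsmul _ _ _ hb
    rw [nsmul_eq_mul, ← hg] at h5
    exact h5.trans hL4
  · intro m hm
    obtain ⟨k, hk, hle, hA, hB⟩ := stage_core hn hQ1 hL1 hN m hm
    have hkd := mem_GQ.1 hk
    refine ⟨k, hk, hle, ?_⟩
    intro ρ hρ
    have hρ0' : 0 < ρ := hρp.trans_le hρ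
    have hbk := bet_pos hρ0 Q L k
    have hvm := vw_pos hρ0' m
    constructor
    · rw [← pow_le_pow_iff_left₀ (mul_nonneg hT (vw_pos hρ0' _).le)
        (mul_nonneg hbk.le hvm.le) (two_ne_zero)]
      rw [mul_pow, mul_pow, vw_sq, vw_sq, bet_sq]
      have hdeg : deg m = deg (m - L • k) + N := by
        have := deg_sub hle
        rw [deg_nsmul, hkd] at this
        rw [hN]
        exact this.symm
      rw [hdeg, pow_add]
      set X := ρ ^ deg (m - L • k) with hX
      have hX0 : 0 < X := pow_pos hρ0' _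
      have h3 : (4 * g) ^ L * (ρ₀ ^ N) ^ 2 ≤ (ρ ^ N) ^ 2 := by
        have h4 : (4 * g) ^ L ≤ (((ρp / ρ₀) ^ 2) ^ Q) ^ L :=
          pow_le_pow_left₀ (by positivity) hQ L
        have h5 : (((ρp / ρ₀) ^ 2) ^ Q) ^ L * (ρ₀ ^ N) ^ 2 = (ρp ^ N) ^ 2 := by
          rw [← pow_mul, ← pow_mul, ← pow_mul, ← pow_mul, div_pow]
          have e : 2 * (Q * L) = N * 2 := by rw [hN]; ring
          rw [e, div_mul_cancel₀ _ (by positivity)]
        calc (4 * g) ^ L * (ρ₀ ^ N) ^ 2 ≤ (((ρp / ρ₀) ^ 2) ^ Q) ^ L * (ρ₀ ^ N) ^ 2 :=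
              mul_le_mul_of_nonneg_right h4 (by positivity)
          _ = (ρp ^ N) ^ 2 := h5
          _ ≤ _ := pow_le_pow_left₀ (by positivity) (pow_le_pow_left₀ hρp.le hρ _) 2
      have hfk := facQuot_pos k
      have hfm := facQuot_pos m
      rw [inv_mul_eq_div, le_div_iff₀ (by positivity)]
      have h6 : facQuot (m - L • k) * facQuot k ^ L ≤ 2 * facQuot m * g ^ L := by
        calc facQuot (m - L • k) * facQuot k ^ L
            ≤ (2 * facQuot m * (g / facQuot k) ^ L) * facQuot k ^ L :=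
              mul_le_mul_of_nonneg_right hA (by positivity)
          _ = _ := by
              rw [div_pow]
              field_simp
      calc T ^ 2 * (facQuot (m - L • k) * X ^ 2) * (facQuot k ^ L * (ρ₀ ^ (L * Q)) ^ 2)
          = T ^ 2 * X ^ 2 * (ρ₀ ^ N) ^ 2 * (facQuot (m - L • k) * facQuot k ^ L) := by
            rw [hN]; ring
        _ ≤ T ^ 2 * X ^ 2 * (ρ₀ ^ N) ^ 2 * (2 * facQuot m * g ^ L) :=
            mul_le_mul_of_nonneg_left h6 (by positivity)
        _ = (2 * T ^ 2) * (X ^ 2 * (ρ₀ ^ N) ^ 2 * facQuot m * g ^ L) := by ring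
        _ ≤ 4 ^ L * (X ^ 2 * (ρ₀ ^ N) ^ 2 * facQuot m * g ^ L) :=
            mul_le_mul_of_nonneg_right hL2 (by positivity)
        _ = ((4 * g) ^ L * (ρ₀ ^ N) ^ 2) * (X ^ 2 * facQuot m) := by rw [mul_pow]; ring
        _ ≤ (ρ ^ N) ^ 2 * (X ^ 2 * facQuot m) := mul_le_mul_of_nonneg_right h3 (by positivity)
        _ = _ := by ring
    · have hb : ∀ k' ∈ (GQ n Q).filter (fun k' => k' ≠ k ∧ ∀ i, k' i % 2 = k i % 2),
          bet ρ₀ Q L k' * vw ρ (m - L • k + L • k') ≤
            1 / (8 * g) * (bet ρ₀ Q L k * vw ρ m) := by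
        intro k' hk'
        rw [Finset.mem_filter] at hk'
        obtain ⟨hk'G, hne, hmod⟩ := hk'
        have hk'd := mem_GQ.1 hk'G
        have h3 := hB k' hk'G hne hmod
        have hbk' := bet_pos hρ0 Q L k'
        rw [← pow_le_pow_iff_left₀ (mul_nonneg hbk'.le (vw_pos hρ0' _).le)
          (by positivity) (two_ne_zero)]
        rw [mul_pow, mul_pow, mul_pow, vw_sq, vw_sq, bet_sq, bet_sq]
        have hdeg : deg (m - L • k + L • k') = deg m := by
          rw [deg_add, deg_nsmul, hk'd, ← hkd, ← deg_nsmul, deg_sub hle]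
        rw [hdeg]
        set X := ρ ^ deg m with hX
        have hX0 : 0 < X := pow_pos hρ0' _
        have hfk := facQuot_pos k
        have hfk' := facQuot_pos k'
        have hfm := facQuot_pos m
        set Y := (ρ₀ ^ (L * Q)) ^ 2 with hY
        have hY0 : 0 < Y := by positivity
        set c : ℝ := (Q : ℝ) / (Q + 1) with hc
        have h4 : 2 * c ^ L ≤ (1 / (8 * g)) ^ 2 := by
          refine hL3.trans (le_of_eq ?_)
          rw [div_pow, one_pow, mul_pow]
          norm_num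
        have h5 : facQuot (m - L • k + L • k') * facQuot k ^ L ≤
            (1 / (8 * g)) ^ 2 * (facQuot m * facQuot k' ^ L) := by
          refine h3.trans ?_
          have := mul_le_mul_of_nonneg_right h4
            (show 0 ≤ facQuot m * facQuot k' ^ L by positivity)
          linarith
        have e1 : (facQuot k' ^ L * Y)⁻¹ * (facQuot (m - L • k + L • k') * X ^ 2) =
            (facQuot (m - L • k + L • k') * facQuot k ^ L) *
              (X ^ 2 / (facQuot k' ^ L * facQuot k ^ L * Y)) := by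
          field_simp
        have e2 : (1 / (8 * g)) ^ 2 * ((facQuot k ^ L * Y)⁻¹ * (facQuot m * X ^ 2)) =
            ((1 / (8 * g)) ^ 2 * (facQuot m * facQuot k' ^ L)) *
              (X ^ 2 / (facQuot k' ^ L * facQuot k ^ L * Y)) := by
          field_simp
        rw [e1, e2]
        exact mul_le_mul_of_nonneg_right h5 (by positivity)
      have h5 := Finset.sum_le_card_nsmul _ _ _ hb
      refine h5.trans ?_
      rw [nsmul_eq_mul]
      have h6 : ((((GQ n Q).filter (fun k' => k' ≠ k ∧ ∀ i, k' i % 2 = k i % 2)).card : ℕ) : ℝ)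
          ≤ g := by
        rw [hg]
        exact_mod_cast Finset.card_filter_le _ _
      have h7 := mul_le_mul_of_nonneg_right h6
        (show 0 ≤ 1 / (8 * g) * (bet ρ₀ Q L k * vw ρ m) by positivity)
      refine h7.trans (le_of_eq ?_)
      field_simp

end

end Pool.Agent.LibHFG
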